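import Mathlib

set_option autoImplicit false

open MeasureTheory Filter Topology
open scoped ENNReal NNReal

namespace Pool.Agent.Lib.MP_11b949_pr

/-- Position `w_i` after `i` steps of the walk started at `0` whose `j`-th step is `+1` or `-1`
according as `ε j` is `true` or `false`. -/
def pos {n : ℕ} (ε : Fin n → Bool) (i : ℕ) : ℤ :=
  ∑ j : Fin n, if j.val < i then (if ε j then 1 else -1) else 0

/-- The sign of the edge `(x, y)`: `+1` in the upper half-plane, `-1` in the lower one. -/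
def edgeSign (x y : ℤ) : ℝ := if 0 < x + y then 1 else -1

/-- The Hamiltonian `H_n^η(w) = ∑_{i=1}^n [λ(1+sη_i) 1{w_i=0} + h sign(w_{i-1},w_i)]`. -/
def ham (η : ℕ → ℝ) (lam h s : ℝ) {n : ℕ} (ε : Fin n → Bool) : ℝ :=
  ∑ i ∈ Finset.range n,
    (lam * (1 + s * η (i + 1)) * (if pos ε (i + 1) = 0 then 1 else 0) +
      h * edgeSign (pos ε i) (pos ε (i + 1)))

/-- The partition function `Z_n^η = E[exp H_n^η]`, the expectation being over the `2^n` equally
likely `n`-step paths of simple random walk. -/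
noncomputable def partFn (η : ℕ → ℝ) (lam h s : ℝ) (n : ℕ) : ℝ :=
  (∑ ε : Fin n → Bool, Real.exp (ham η lam h s ε)) / 2 ^ n

variable {Ω : Type} [MeasurableSpace Ω]

/-- `f(λ,h,s) = c`: almost surely `(1/n) log Z_n^η → c`. -/
def FreeEnergyEq (P : Measure Ω) (η : ℕ → Ω → ℝ) (lam h s c : ℝ) : Prop :=
  ∀ᵐ ω ∂P, Tendsto (fun n : ℕ => Real.log (partFn (fun i => η i ω) lam h s n) / n) atTop (𝓝 c)

/-- The critical curve `h_c(λ,s) = inf {h ≥ 0 : f(λ,h,s) = h} ∈ [0,∞]`. -/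
noncomputable def critCurve (P : Measure Ω) (η : ℕ → Ω → ℝ) (lam s : ℝ) : ℝ≥0∞ :=
  ⨅ (h : ℝ≥0) (_ : FreeEnergyEq P η lam h s h), (h : ℝ≥0∞)

/-- The threshold `λ_c(s) = sup {λ ≥ 0 : h_c(λ,s) < ∞}`. -/
noncomputable def critLam (P : Measure Ω) (η : ℕ → Ω → ℝ) (s : ℝ) : ℝ :=
  sSup {lam : ℝ | 0 ≤ lam ∧ critCurve P η lam s < ⊤}

end Pool.Agent.Lib.MP_11b949_pr
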