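import Mathlib
import Pool.Agent.Lib.MP_11b949_pr.Defs

set_option autoImplicit false

open Filter Topology

namespace Pool.Agent.Lib.MP_11b949_pr

/-- Normalised exponent of one edge. -/
noncomputable def term (ω : ℕ → ℝ) (h : ℝ) (t : ℕ) (x y : ℤ) : ℝ :=
  ω (t + 1) * (if y = 0 then 1 else 0) + h * (edgeSign x y - 1)

/-- Normalised Hamiltonian of a path started at time `t` from `x`. -/
noncomputable def hamG (ω : ℕ → ℝ) (h : ℝ) (t : ℕ) (x : ℤ) {n : ℕ} (ε : Fin n → Bool) : ℝ :=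
  ∑ i ∈ Finset.range n, term ω h (t + i) (x + pos ε i) (x + pos ε (i + 1))

/-- Normalised partition function of `n` steps started at time `t` from `x`. -/
noncomputable def G (ω : ℕ → ℝ) (h : ℝ) (n t : ℕ) (x : ℤ) : ℝ :=
  (∑ ε : Fin n → Bool, Real.exp (hamG ω h t x ε)) / 2 ^ n

theorem pos_zero {n : ℕ} (ε : Fin n → Bool) : pos ε 0 = 0 := by simp [pos]

theorem pos_cons {n : ℕ} (b : Bool) (ε : Fin n → Bool) (i : ℕ) :
    pos (Fin.cons b ε : Fin (n + 1) → Bool) (i + 1) = (if b then 1 else -1) + pos ε i := by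
  simp [pos, Fin.sum_univ_succ]

theorem hamG_cons (ω : ℕ → ℝ) (h : ℝ) (t : ℕ) (x : ℤ) {n : ℕ} (b : Bool) (ε : Fin n → Bool) :
    hamG ω h t x (Fin.cons b ε : Fin (n + 1) → Bool) =
      term ω h t x (x + (if b then 1 else -1)) +
        hamG ω h (t + 1) (x + (if b then 1 else -1)) ε := by
  unfold hamG
  rw [Finset.sum_range_succ', add_comm]
  congr 1
  · rw [pos_zero, zero_add, pos_cons, pos_zero]; simp
  · apply Finset.sum_congr rfl
    intro i _
    rw [pos_cons, pos_cons]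
    congr 1
    · ring
    · ring
    · ring

theorem G_zero (ω : ℕ → ℝ) (h : ℝ) (t : ℕ) (x : ℤ) : G ω h 0 t x = 1 := by
  simp [G, hamG]

theorem G_succ (ω : ℕ → ℝ) (h : ℝ) (n t : ℕ) (x : ℤ) :
    G ω h (n + 1) t x = (Real.exp (term ω h t x (x + 1)) * G ω h n (t + 1) (x + 1) +
      Real.exp (term ω h t x (x - 1)) * G ω h n (t + 1) (x - 1)) / 2 := by
  unfold G
  rw [← Fintype.sum_equiv (Fin.consEquiv (fun _ : Fin (n + 1) => Bool))
    (fun p => Real.exp (hamG ω h t x (Fin.cons p.1 p.2 : Fin (n + 1) → Bool))) _ (fun p => rfl),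
    Fintype.sum_prod_type, Fintype.sum_bool]
  simp only [hamG_cons, Real.exp_add, ← Finset.mul_sum, if_true, Bool.false_eq_true, if_false,
    ← sub_eq_add_neg]
  field_simp
  ring

theorem G_pos (ω : ℕ → ℝ) (h : ℝ) (n t : ℕ) (x : ℤ) : 0 < G ω h n t x := by
  unfold G
  apply div_pos
  · exact Finset.sum_pos (fun _ _ => Real.exp_pos _) Finset.univ_nonempty
  · positivity

/-- The contact factor. -/
noncomputable def cf (ω : ℕ → ℝ) (t : ℕ) (y : ℤ) : ℝ := if y = 0 then Real.exp (ω t) else 1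

theorem cf_pos (ω : ℕ → ℝ) (t : ℕ) (y : ℤ) : 0 < cf ω t y := by
  unfold cf; split_ifs
  · exact Real.exp_pos _
  · exact one_pos

/-- The edge factor. -/
noncomputable def ef (h : ℝ) (x y : ℤ) : ℝ := if 0 < x + y then 1 else Real.exp (-2 * h)

theorem ef_pos (h : ℝ) (x y : ℤ) : 0 < ef h x y := by
  unfold ef; split_ifs
  · exact one_pos
  · exact Real.exp_pos _

theorem exp_term (ω : ℕ → ℝ) (h : ℝ) (t : ℕ) (x y : ℤ) :
    Real.exp (term ω h t x y) = ef h x y * cf ω (t + 1) y := by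
  unfold term ef cf edgeSign
  rw [Real.exp_add, mul_comm]
  congr 1
  · split_ifs
    · simp
    · congr 1; ring
  · split_ifs <;> simp

theorem G_succ' (ω : ℕ → ℝ) (h : ℝ) (n t : ℕ) (x : ℤ) :
    G ω h (n + 1) t x = (ef h x (x + 1) * (cf ω (t + 1) (x + 1) * G ω h n (t + 1) (x + 1)) +
      ef h x (x - 1) * (cf ω (t + 1) (x - 1) * G ω h n (t + 1) (x - 1))) / 2 := by
  rw [G_succ, exp_term, exp_term]; ring

theorem G_succ_pos (ω : ℕ → ℝ) (h : ℝ) (n t : ℕ) (x : ℤ) (hx : 1 ≤ x) :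
    G ω h (n + 1) t x = (G ω h n (t + 1) (x + 1) +
      cf ω (t + 1) (x - 1) * G ω h n (t + 1) (x - 1)) / 2 := by
  rw [G_succ']
  have h1 : ef h x (x + 1) = 1 := if_pos (by omega)
  have h2 : ef h x (x - 1) = 1 := if_pos (by omega)
  have h3 : cf ω (t + 1) (x + 1) = 1 := if_neg (by omega)
  rw [h1, h2, h3]; ring

theorem G_succ_zero (ω : ℕ → ℝ) (h : ℝ) (n t : ℕ) :
    G ω h (n + 1) t 0 = (G ω h n (t + 1) 1 + Real.exp (-2 * h) * G ω h n (t + 1) (-1)) / 2 := by
  rw [G_succ']
  simp [ef, cf]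

theorem G_succ_neg_one (ω : ℕ → ℝ) (h : ℝ) (n t : ℕ) :
    Real.exp (-2 * h) * Real.exp (ω (t + 1)) * G ω h n (t + 1) 0 / 2 ≤ G ω h (n + 1) t (-1) := by
  rw [G_succ']
  have h1 := mul_pos (ef_pos h (-1) (-1 - 1))
    (mul_pos (cf_pos ω (t + 1) (-1 - 1)) (G_pos ω h n (t + 1) (-1 - 1)))
  have h2 : ef h (-1) (-1 + 1) = Real.exp (-2 * h) := if_neg (by omega)
  have h3 : cf ω (t + 1) (-1 + 1) = Real.exp (ω (t + 1)) := if_pos (by omega)
  rw [h2, h3]
  have h4 : (-1 + 1 : ℤ) = 0 := by omega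
  rw [h4]
  apply div_le_div_of_nonneg_right _ (by norm_num)
  rw [mul_assoc]
  exact le_add_of_nonneg_right h1.le

/-- Lower bound by the probability of staying positive. -/
theorem G_lower (ω : ℕ → ℝ) (h : ℝ) (n : ℕ) : ∀ (t : ℕ) (x : ℤ), 1 ≤ x →
    (x : ℝ) / (x + n) ≤ G ω h n t x := by
  induction n with
  | zero =>
    intro t x hx
    have : (0 : ℝ) < x := by exact_mod_cast (by omega : (0 : ℤ) < x)
    rw [G_zero]; simp [this.ne']
  | succ n ih =>
    intro t x hx
    have hx' : (1 : ℝ) ≤ x := by exact_mod_cast hx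
    have hn : (0 : ℝ) ≤ n := Nat.cast_nonneg n
    rw [G_succ_pos ω h n t x hx]
    have h1 := ih (t + 1) (x + 1) (by omega)
    have h2 : ((x : ℝ) - 1) / (x + (n + 1)) ≤ cf ω (t + 1) (x - 1) * G ω h n (t + 1) (x - 1) := by
      by_cases hx1 : x = 1
      · subst hx1
        have := mul_pos (cf_pos ω (t + 1) (1 - 1)) (G_pos ω h n (t + 1) (1 - 1))
        simpa using this.le
      · have h3 := ih (t + 1) (x - 1) (by omega)
        have h4 : cf ω (t + 1) (x - 1) = 1 := if_neg (by omega)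
        have hx2 : (2 : ℝ) ≤ x := by exact_mod_cast (by omega : (2 : ℤ) ≤ x)
        rw [h4, one_mul]
        refine le_trans ?_ h3
        push_cast
        apply div_le_div_of_nonneg_left <;> linarith
    push_cast at h1 ⊢
    have e : (x : ℝ) / (x + (n + 1)) =
        (((x : ℝ) + 1) / (x + 1 + n) + ((x : ℝ) - 1) / (x + (n + 1))) / 2 := by
      have : (x : ℝ) + (n + 1) ≠ 0 := by linarith
      have : (x : ℝ) + 1 + n ≠ 0 := by linarith
      field_simp
      ring
    rw [e]
    linarith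

theorem G_lower_zero (ω : ℕ → ℝ) (h : ℝ) (n t : ℕ) : 1 / (2 * ((n : ℝ) + 1)) ≤ G ω h n t 0 := by
  cases n with
  | zero => rw [G_zero]; norm_num
  | succ n =>
    rw [G_succ_zero]
    have h1 := G_lower ω h n (t + 1) 1 le_rfl
    have h2 := mul_pos (Real.exp_pos (-2 * h)) (G_pos ω h n (t + 1) (-1))
    have hn : (0 : ℝ) ≤ n := Nat.cast_nonneg n
    have h3 : 1 / (2 * (((n + 1 : ℕ) : ℝ) + 1)) ≤ (((1 : ℤ) : ℝ) / ((1 : ℤ) + n)) / 2 := by
      push_cast
      rw [div_div]
      apply one_div_le_one_div_of_le <;> linarith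
    linarith

/-- Harnack type inequality. -/
theorem harnack (ω : ℕ → ℝ) (h : ℝ) (n : ℕ) : ∀ (t : ℕ) (x : ℤ), 1 ≤ x →
    (x : ℝ) * G ω h n t (x + 2) ≤ (x + 2) * G ω h n t x := by
  induction n with
  | zero => intro t x _; rw [G_zero, G_zero]; linarith
  | succ n ih =>
    intro t x hx
    have hx' : (1 : ℝ) ≤ x := by exact_mod_cast hx
    rw [G_succ_pos ω h n t x hx, G_succ_pos ω h n t (x + 2) (by omega)]
    have h0 : cf ω (t + 1) (x + 2 - 1) = 1 := if_neg (by omega)
    have e1 : x + 2 - 1 = x + 1 := by ring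
    have e2 : x + 2 + 1 = x + 1 + 2 := by ring
    rw [h0, e1, e2, one_mul]
    have h1 := ih (t + 1) (x + 1) (by omega)
    have h2 : ((x : ℝ) - 1) * G ω h n (t + 1) (x + 1) ≤
        (x + 1) * (cf ω (t + 1) (x - 1) * G ω h n (t + 1) (x - 1)) := by
      by_cases hx1 : x = 1
      · subst hx1
        have := mul_pos (cf_pos ω (t + 1) (1 - 1)) (G_pos ω h n (t + 1) (1 - 1))
        rw [Int.cast_one, sub_self, zero_mul]
        positivity
      · have h3 := ih (t + 1) (x - 1) (by omega)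
        have h4 : cf ω (t + 1) (x - 1) = 1 := if_neg (by omega)
        have e3 : x - 1 + 2 = x + 1 := by ring
        rw [e3] at h3
        push_cast at h3
        rw [h4, one_mul]
        linarith
    push_cast at h1
    set A := G ω h n (t + 1) (x + 1 + 2)
    set B := G ω h n (t + 1) (x + 1)
    set C := cf ω (t + 1) (x - 1) * G ω h n (t + 1) (x - 1)
    have key : ((x : ℝ) + 1) * (x * (A + B)) ≤ (x + 1) * ((x + 2) * (B + C)) := by
      nlinarith [mul_le_mul_of_nonneg_left h1 (by linarith : (0 : ℝ) ≤ x),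
        mul_le_mul_of_nonneg_left h2 (by linarith : (0 : ℝ) ≤ x + 2)]
    have := le_of_mul_le_mul_left key (by linarith)
    linarith

theorem G_two_le (ω : ℕ → ℝ) (h : ℝ) (n t : ℕ) : G ω h n t 2 ≤ 4 * G ω h n t 0 := by
  cases n with
  | zero => rw [G_zero, G_zero]; norm_num
  | succ n =>
    rw [G_succ_zero, G_succ_pos ω h n t 2 (by norm_num)]
    have h0 : cf ω (t + 1) (2 - 1) = 1 := if_neg (by omega)
    have h1 := harnack ω h n (t + 1) 1 le_rfl
    have h2 := mul_pos (Real.exp_pos (-2 * h)) (G_pos ω h n (t + 1) (-1))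
    rw [h0]
    norm_num at h1 ⊢
    norm_num at h2
    linarith

/-- The bonus fraction available at a contact, given the reward two steps later. -/
noncomputable def bonus (h c : ℝ) : ℝ :=
  Real.exp (-2 * h) * (Real.exp (-2 * h) * Real.exp c / (4 + Real.exp c)) / 2

theorem frac_le (h c : ℝ) (hh : 0 ≤ h) :
    Real.exp (-2 * h) * Real.exp c / (4 + Real.exp c) ≤ 1 := by
  have h1 : Real.exp (-2 * h) ≤ 1 := Real.exp_le_one_iff.mpr (by linarith)
  have h2 := Real.exp_pos c
  have h3 := Real.exp_pos (-2 * h)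
  rw [div_le_one (by linarith)]
  nlinarith

theorem bonus_pos (h c : ℝ) : 0 < bonus h c := by unfold bonus; positivity

theorem bonus_le (h c : ℝ) (hh : 0 ≤ h) : bonus h c ≤ 1 := by
  have h1 : Real.exp (-2 * h) ≤ 1 := Real.exp_le_one_iff.mpr (by linarith)
  have h2 := frac_le h c hh
  have h3 := Real.exp_pos (-2 * h)
  have h4 : 0 ≤ Real.exp (-2 * h) * Real.exp c / (4 + Real.exp c) := by positivity
  unfold bonus
  nlinarith

theorem neg_ge (ω : ℕ → ℝ) (h : ℝ) (hh : 0 ≤ h) (n t : ℕ) :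
    Real.exp (-2 * h) * Real.exp (ω (t + 1)) / (4 + Real.exp (ω (t + 1))) * G ω h n t 1 ≤
      G ω h n t (-1) := by
  cases n with
  | zero => rw [G_zero, G_zero, mul_one]; exact frac_le h _ hh
  | succ n =>
    refine le_trans ?_ (G_succ_neg_one ω h n t)
    rw [G_succ_pos ω h n t 1 le_rfl]
    have h0 : cf ω (t + 1) (1 - 1) = Real.exp (ω (t + 1)) := if_pos (by omega)
    have h1 := G_two_le ω h n (t + 1)
    have h2 := Real.exp_pos (ω (t + 1))
    have h3 := Real.exp_pos (-2 * h)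
    rw [h0]
    norm_num
    norm_num at h3
    set c := Real.exp (ω (t + 1))
    set a := Real.exp (-(2 * h))
    set g0 := G ω h n (t + 1) 0
    set g2 := G ω h n (t + 1) 2
    have e : a * c * g0 / 2 = a * c / (4 + c) * ((4 * g0 + c * g0) / 2) := by
      field_simp
    rw [e]
    apply mul_le_mul_of_nonneg_left _ (by positivity)
    linarith

/-- The enhanced environment. -/
noncomputable def enh (ω : ℕ → ℝ) (h : ℝ) (t : ℕ) : ℝ :=
  ω t + Real.log (1 + bonus h (ω (t + 2)))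

theorem ef_mono (h : ℝ) (x y : ℤ) : ef (h + Real.log 2) x y ≤ ef h x y := by
  unfold ef
  split_ifs
  · exact le_rfl
  · apply Real.exp_le_exp.mpr
    have := Real.log_nonneg (by norm_num : (1 : ℝ) ≤ 2)
    linarith

theorem exp_shift (h : ℝ) : Real.exp (-2 * (h + Real.log 2)) = Real.exp (-2 * h) / 4 := by
  have : -2 * (h + Real.log 2) = -2 * h - (Real.log 2 + Real.log 2) := by ring
  rw [this, Real.exp_sub, Real.exp_add, Real.exp_log (by norm_num)]
  norm_num

theorem compare (ω : ℕ → ℝ) (h : ℝ) (hh : 0 ≤ h) (n : ℕ) : ∀ (t : ℕ) (x : ℤ),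
    cf (enh ω h) t x * G (enh ω h) (h + Real.log 2) n t x ≤ 2 * (cf ω t x * G ω h n t x) := by
  have hcf : ∀ t, cf (enh ω h) t 0 = Real.exp (ω t) * (1 + bonus h (ω (t + 2))) := by
    intro t
    have := bonus_pos h (ω (t + 2))
    simp only [cf, enh, if_true]
    rw [Real.exp_add, Real.exp_log (by linarith)]
  induction n with
  | zero =>
    intro t x
    rw [G_zero, G_zero]
    by_cases hx : x = 0
    · subst hx
      rw [hcf]
      have h1 := bonus_le h (ω (t + 2)) hh
      have h2 := Real.exp_pos (ω t)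
      simp only [cf, if_true]
      nlinarith
    · simp [cf, hx]
  | succ n ih =>
    intro t x
    by_cases hx : x = 0
    · subst hx
      rw [hcf, G_succ_zero, G_succ_zero, exp_shift]
      have h1 := ih (t + 1) 1
      have h2 := ih (t + 1) (-1)
      have c1 : ∀ ω' : ℕ → ℝ, cf ω' (t + 1) 1 = 1 := fun _ => if_neg (by omega)
      have c2 : ∀ ω' : ℕ → ℝ, cf ω' (t + 1) (-1) = 1 := fun _ => if_neg (by omega)
      rw [c1, c1, one_mul, one_mul] at h1
      rw [c2, c2, one_mul, one_mul] at h2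
      have h3 := neg_ge ω h hh n (t + 1)
      have h4 := bonus_le h (ω (t + 2)) hh
      have h5 := bonus_pos h (ω (t + 2))
      have h6 := Real.exp_pos (ω t)
      have h7 := Real.exp_pos (-2 * h)
      have h8 := G_pos ω h n (t + 1) (-1)
      have h9 : bonus h (ω (t + 2)) * G ω h n (t + 1) 1 ≤
          Real.exp (-2 * h) / 2 * G ω h n (t + 1) (-1) := by
        have := mul_le_mul_of_nonneg_left h3 (by positivity : 0 ≤ Real.exp (-2 * h) / 2)
        refine le_trans (le_of_eq ?_) this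
        unfold bonus
        ring
      simp only [cf, if_true]
      set δ := bonus h (ω (t + 2))
      set a := Real.exp (-2 * h)
      set c := Real.exp (ω t)
      set A1 := G ω h n (t + 1) 1
      set A2 := G ω h n (t + 1) (-1)
      set B1 := G (enh ω h) (h + Real.log 2) n (t + 1) 1
      set B2 := G (enh ω h) (h + Real.log 2) n (t + 1) (-1)
      have k1 : (B1 + a / 4 * B2) / 2 ≤ A1 + a / 4 * A2 := by nlinarith
      have k2 : (1 + δ) * (A1 + a / 4 * A2) ≤ A1 + a * A2 := by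
        have : δ * (a * A2) ≤ a * A2 := by
          have := mul_pos h7 h8
          nlinarith
        nlinarith
      have k3 : (1 + δ) * ((B1 + a / 4 * B2) / 2) ≤ A1 + a * A2 :=
        le_trans (mul_le_mul_of_nonneg_left k1 (by linarith)) k2
      have k4 := mul_le_mul_of_nonneg_left k3 h6.le
      linarith
    · have c1 : ∀ ω' : ℕ → ℝ, cf ω' t x = 1 := fun _ => if_neg hx
      rw [c1, c1, one_mul, one_mul, G_succ', G_succ']
      have h1 := ih (t + 1) (x + 1)
      have h2 := ih (t + 1) (x - 1)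
      have k1 := mul_le_mul (ef_mono h x (x + 1)) h1
        (mul_pos (cf_pos _ _ _) (G_pos _ _ _ _ _)).le (ef_pos _ _ _).le
      have k2 := mul_le_mul (ef_mono h x (x - 1)) h2
        (mul_pos (cf_pos _ _ _) (G_pos _ _ _ _ _)).le (ef_pos _ _ _).le
      linarith

theorem compare_zero (ω : ℕ → ℝ) (h : ℝ) (hh : 0 ≤ h) (n : ℕ) :
    G (enh ω h) (h + Real.log 2) n 0 0 ≤ 2 * G ω h n 0 0 := by
  have h1 := compare ω h hh n 0 0
  have h2 : cf ω 0 0 ≤ cf (enh ω h) 0 0 := by
    simp only [cf, enh, if_true]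
    apply Real.exp_le_exp.mpr
    have := bonus_pos h (ω (0 + 2))
    have := Real.log_nonneg (by linarith : 1 ≤ 1 + bonus h (ω (0 + 2)))
    linarith
  have h3 := cf_pos ω 0 0
  have h4 := G_pos (enh ω h) (h + Real.log 2) n 0 0
  have h5 : cf ω 0 0 * G (enh ω h) (h + Real.log 2) n 0 0 ≤ cf ω 0 0 * (2 * G ω h n 0 0) := by
    nlinarith
  exact le_of_mul_le_mul_left h5 h3

/-- Convexity in the environment. -/
theorem G_convex (ω₁ ω₂ : ℕ → ℝ) (h a b : ℝ) (ha : 0 ≤ a) (hb : 0 ≤ b) (hab : a + b = 1)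
    (n t : ℕ) (x : ℤ) :
    G (fun i => a * ω₁ i + b * ω₂ i) h n t x ≤ a * G ω₁ h n t x + b * G ω₂ h n t x := by
  unfold G
  rw [← mul_div_assoc, ← mul_div_assoc, ← add_div, Finset.mul_sum, Finset.mul_sum,
    ← Finset.sum_add_distrib]
  apply div_le_div_of_nonneg_right _ (by positivity)
  apply Finset.sum_le_sum
  intro ε _
  have e : hamG (fun i => a * ω₁ i + b * ω₂ i) h t x ε =
      a * hamG ω₁ h t x ε + b * hamG ω₂ h t x ε := by
    unfold hamG
    rw [Finset.mul_sum, Finset.mul_sum, ← Finset.sum_add_distrib]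
    apply Finset.sum_congr rfl
    intro i _
    unfold term
    have hb' : b = 1 - a := by linarith
    rw [hb']
    ring
  rw [e]
  exact convexOn_exp.2 (Set.mem_univ _) (Set.mem_univ _) ha hb hab

/-- The zig-zag path gives a lower bound. -/
theorem G_zigzag (ω : ℕ → ℝ) (h : ℝ) (m : ℕ) : ∀ t : ℕ,
    Real.exp (∑ j ∈ Finset.range m, (ω (t + 2 * j + 2) - Real.log 4)) ≤ G ω h (2 * m) t 0 := by
  induction m with
  | zero => intro t; simp [G_zero]
  | succ m ih =>
    intro t
    have e : 2 * (m + 1) = 2 * m + 1 + 1 := by ring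
    rw [e, G_succ_zero, G_succ_pos ω h (2 * m) (t + 1) 1 le_rfl, Finset.sum_range_succ',
      Real.exp_add]
    have h0 : cf ω (t + 1 + 1) (1 - 1) = Real.exp (ω (t + 2)) := if_pos (by omega)
    have h1 := ih (t + 2)
    have e1 : ∑ j ∈ Finset.range m, (ω (t + 2 * (j + 1) + 2) - Real.log 4) =
        ∑ j ∈ Finset.range m, (ω (t + 2 + 2 * j + 2) - Real.log 4) := by
      apply Finset.sum_congr rfl
      intro j _
      congr 2
      ring
    rw [h0, e1, Real.exp_sub, Real.exp_log (by norm_num)]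
    have h2 := mul_pos (Real.exp_pos (-2 * h)) (G_pos ω h (2 * m + 1) (t + 1) (-1))
    have h3 := G_pos ω h (2 * m) (t + 1 + 1) (1 + 1)
    have h4 := Real.exp_pos (ω (t + 2))
    have h5 := mul_le_mul_of_nonneg_left h1 h4.le
    simp only [mul_zero, add_zero, sub_self]
    have e2 : t + 1 + 1 = t + 2 := rfl
    rw [e2] at h3 ⊢
    set c := Real.exp (ω (t + 2))
    set E := Real.exp (∑ j ∈ Finset.range m, (ω (t + 2 + 2 * j + 2) - Real.log 4))
    have e3 : E * (c / 4) = (c * E) / 4 := by ring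
    rw [e3]
    generalize c * E = u at h5 ⊢
    generalize c * G ω h (2 * m) (t + 2) 0 = v at h5 ⊢
    generalize Real.exp (-2 * h) * G ω h (2 * m + 1) (t + 1) (-1) = w at h2 ⊢
    generalize G ω h (2 * m) (t + 2) (1 + 1) = z at h3 ⊢
    clear e e1 e2 e3 h0 h1 ih
    linarith

theorem partFn_eq (η : ℕ → ℝ) (lam h s : ℝ) (n : ℕ) :
    partFn η lam h s n = Real.exp (h * n) * G (fun i => lam * (1 + s * η i)) h n 0 0 := by
  unfold partFn G
  rw [← mul_div_assoc, Finset.mul_sum]
  congr 1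
  apply Finset.sum_congr rfl
  intro ε _
  rw [← Real.exp_add]
  congr 1
  unfold ham hamG term
  have : h * n = ∑ _i ∈ Finset.range n, h := by simp [mul_comm]
  rw [this, ← Finset.sum_add_distrib]
  apply Finset.sum_congr rfl
  intro i _
  simp only [zero_add]
  ring

theorem G_le_prod (ω : ℕ → ℝ) (h : ℝ) (hh : 0 ≤ h) (n : ℕ) :
    G ω h n 0 0 ≤ (∑ ε : Fin n → Bool, ∏ i ∈ Finset.range n,
      (if pos ε (i + 1) = 0 then Real.exp (ω (i + 1)) else 1)) / 2 ^ n := by
  unfold G
  apply div_le_div_of_nonneg_right _ (by positivity)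
  apply Finset.sum_le_sum
  intro ε _
  unfold hamG
  rw [Real.exp_sum]
  apply Finset.prod_le_prod (fun _ _ => (Real.exp_pos _).le)
  intro i _
  rw [exp_term]
  have h1 : ef h (0 + pos ε i) (0 + pos ε (i + 1)) ≤ 1 := by
    unfold ef
    split_ifs
    · exact le_rfl
    · exact Real.exp_le_one_iff.mpr (by linarith)
  have h2 := cf_pos ω (0 + i + 1) (0 + pos ε (i + 1))
  have h3 : cf ω (0 + i + 1) (0 + pos ε (i + 1)) =
      (if pos ε (i + 1) = 0 then Real.exp (ω (i + 1)) else 1) := by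
    simp [cf]
  rw [← h3]
  nlinarith

end Pool.Agent.Lib.MP_11b949_pr
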