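import Mathlib
import Pool.Agent.Lib.MP_11b949_pr.Walk

set_option autoImplicit false

open Finset

namespace Pool.Agent.Lib.MP_11b949_pr

/-- Probability that the walk started at height `x` first hits zero at time `g`. -/
noncomputable def fp : ℕ → ℕ → ℝ
  | 0, 0 => 1
  | _ + 1, 0 => 0
  | 0, _ + 1 => 0
  | x + 1, g + 1 => (fp (x + 2) g + fp x g) / 2

theorem fp_nonneg : ∀ g x, 0 ≤ fp x g
  | 0, 0 => by simp [fp]
  | 0, _ + 1 => by simp [fp]
  | _ + 1, 0 => by simp [fp]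
  | g + 1, x + 1 => by
    have h1 := fp_nonneg g (x + 2)
    have h2 := fp_nonneg g x
    rw [fp]; linarith

theorem fp_sum : ∀ n x, ∑ g ∈ range n, fp x g ≤ 1
  | 0, _ => by simp
  | n + 1, 0 => by rw [sum_range_succ']; simp [fp]
  | n + 1, x + 1 => by
    have h1 := fp_sum n (x + 2)
    have h2 := fp_sum n x
    rw [sum_range_succ']
    simp only [fp, add_zero]
    rw [← sum_div, sum_add_distrib]
    linarith

theorem fp_small : ∀ g x, g < x → fp x g = 0
  | 0, _ + 1, _ => by simp [fp]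
  | g + 1, x + 1, h => by
    rw [fp, fp_small g (x + 2) (by omega), fp_small g x (by omega)]; simp

theorem fp_odd : ∀ g x, (x + g) % 2 = 1 → fp x g = 0
  | 0, 0, h => by omega
  | 0, _ + 1, _ => by simp [fp]
  | _ + 1, 0, _ => by simp [fp]
  | g + 1, x + 1, h => by
    rw [fp, fp_odd g (x + 2) (by omega), fp_odd g x (by omega)]; simp

theorem fp_closed (j : ℕ) : ∀ x : ℕ, fp (x + 1) (x + 1 + 2 * j) =
    (x + 1) * (x + 2 * j).factorial / (j.factorial * (x + 1 + j).factorial) / 2 ^ (x + 1 + 2 * j) := by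
  induction j with
  | zero =>
    intro x
    have h : ∀ y : ℕ, fp y y = 1 / 2 ^ y := by
      intro y
      induction y with
      | zero => simp [fp]
      | succ y ih => rw [fp, fp_small y (y + 2) (by omega), ih]; field_simp; ring
    simp only [mul_zero, add_zero, h, Nat.factorial_zero, Nat.factorial_succ]
    push_cast
    have : (x.factorial : ℝ) ≠ 0 := by positivity
    field_simp
  | succ j ih =>
    intro x
    induction x with
    | zero =>
      have e : 0 + 1 + 2 * (j + 1) = (1 + 1 + 2 * j) + 1 := by ring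
      rw [e, fp, ih 1]
      have e2 : 1 + 1 + 2 * j = (2 * j + 1) + 1 := by ring
      have e3 : fp 0 (1 + 1 + 2 * j) = 0 := by rw [e2, fp]
      rw [e3]
      have e4 : 0 + 2 * (j + 1) = (1 + 2 * j) + 1 := by ring
      have e5 : 0 + 1 + (j + 1) = 1 + 1 + j := by ring
      rw [e4, e5, Nat.factorial_succ (1 + 2 * j), Nat.factorial_succ j]
      push_cast
      have : (j.factorial : ℝ) ≠ 0 := by positivity
      have : ((1 + 1 + j).factorial : ℝ) ≠ 0 := by positivity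
      field_simp
      ring
    | succ x ihx =>
      have e : x + 1 + 1 + 2 * (j + 1) = (x + 2 + 1 + 2 * j) + 1 := by ring
      have e1 : x + 1 + 2 * (j + 1) = x + 2 + 1 + 2 * j := by ring
      rw [e, fp]
      rw [e1] at ihx
      rw [ihx, show x + 1 + 2 = x + 2 + 1 by ring, ih (x + 2)]
      have e4 : x + 2 * (j + 1) = x + 2 + 2 * j := by ring
      have e5 : x + 1 + 2 * (j + 1) = (x + 2 + 2 * j) + 1 := by ring
      have e6 : x + 2 + 1 + j = (x + 1 + (j + 1)) + 1 := by ring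
      have e7 : x + 1 + 1 + (j + 1) = (x + 1 + (j + 1)) + 1 := by ring
      rw [e4, e5, e6, e7, Nat.factorial_succ (x + 2 + 2 * j), Nat.factorial_succ j,
        Nat.factorial_succ (x + 1 + (j + 1))]
      push_cast
      have : (j.factorial : ℝ) ≠ 0 := by positivity
      have : ((x + 1 + (j + 1)).factorial : ℝ) ≠ 0 := by positivity
      field_simp
      ring

theorem fp_ratio (m : ℕ) :
    fp 1 (2 * (m + 1) + 1) = fp 1 (2 * m + 1) * ((2 * m + 1) / (2 * (m + 2))) := by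
  have h1 := fp_closed m 0
  have h2 := fp_closed (m + 1) 0
  rw [show 0 + 1 + 2 * m = 2 * m + 1 by ring] at h1
  rw [show 0 + 1 + 2 * (m + 1) = 2 * (m + 1) + 1 by ring] at h2
  simp only [zero_add] at h1 h2
  rw [h1, h2, show 2 * (m + 1) = 2 * m + 1 + 1 by ring, show 1 + (m + 1) = 1 + m + 1 by ring,
    Nat.factorial_succ (2 * m + 1), Nat.factorial_succ (2 * m), Nat.factorial_succ m,
    Nat.factorial_succ (1 + m)]
  push_cast
  have : (m.factorial : ℝ) ≠ 0 := by positivity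
  have : ((1 + m).factorial : ℝ) ≠ 0 := by positivity
  field_simp
  ring

theorem fp_one_one : fp 1 1 = 1 / 2 := by simp [fp]

theorem fp_sq_le (m : ℕ) : fp 1 (2 * m + 1) ^ 2 * ((m : ℝ) + 1) ^ 3 ≤ 1 / 4 := by
  induction m with
  | zero => simp [fp_one_one]; norm_num
  | succ m ih =>
    rw [fp_ratio]
    refine le_trans ?_ ih
    push_cast
    have hm : (0 : ℝ) ≤ m := Nat.cast_nonneg m
    rw [mul_pow, mul_assoc]
    apply mul_le_mul_of_nonneg_left _ (sq_nonneg _)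
    rw [div_pow, div_mul_eq_mul_div, div_le_iff₀ (by positivity)]
    have : (0 : ℝ) ≤ m ^ 2 := by positivity
    have : (0 : ℝ) ≤ m ^ 3 := by positivity
    nlinarith

theorem fp_sq_ge (m : ℕ) : 1 / 32 ≤ fp 1 (2 * m + 1) ^ 2 * ((m : ℝ) + 1 / 2) ^ 3 := by
  induction m with
  | zero => simp [fp_one_one]; norm_num
  | succ m ih =>
    rw [fp_ratio]
    refine le_trans ih ?_
    push_cast
    have hm : (0 : ℝ) ≤ m := Nat.cast_nonneg m
    rw [mul_pow, mul_assoc]
    apply mul_le_mul_of_nonneg_left _ (sq_nonneg _)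
    rw [div_pow, div_mul_eq_mul_div, le_div_iff₀ (by positivity)]
    have : (0 : ℝ) ≤ m ^ 2 := by positivity
    have : (0 : ℝ) ≤ m ^ 3 := by positivity
    nlinarith

theorem rpow_sq (y : ℝ) (hy : 0 < y) : (y ^ (-(3 / 2) : ℝ)) ^ 2 * y ^ 3 = 1 := by
  rw [← Real.rpow_natCast, ← Real.rpow_natCast y 3, ← Real.rpow_mul hy.le, ← Real.rpow_add hy]
  norm_num

theorem fp_upper (g : ℕ) : fp 1 g ≤ 2 * ((g : ℝ) + 1) ^ (-(3 / 2) : ℝ) := by
  have hp : (0 : ℝ) < (g : ℝ) + 1 := by positivity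
  have h0 := Real.rpow_pos_of_pos hp (-(3 / 2))
  rcases Nat.even_or_odd' g with ⟨m, rfl | rfl⟩
  · rw [fp_odd _ _ (by omega)]; positivity
  · have h1 := fp_sq_le m
    have h2 := rpow_sq _ hp
    push_cast at h2 h0 ⊢
    set w := (2 * (m : ℝ) + 1 + 1) ^ (-(3 / 2) : ℝ)
    have hm : (0 : ℝ) < ((m : ℝ) + 1) ^ 3 := by positivity
    apply abs_le_of_sq_le_sq' _ (by positivity) |>.2
    have : fp 1 (2 * m + 1) ^ 2 * ((m : ℝ) + 1) ^ 3 ≤ (2 * w) ^ 2 * ((m : ℝ) + 1) ^ 3 := by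
      nlinarith
    exact le_of_mul_le_mul_right this hm

theorem fp_lower (m : ℕ) : ((m : ℝ) + 1) ^ (-(3 / 2) : ℝ) / 6 ≤ fp 1 (2 * m + 1) := by
  have hp : (0 : ℝ) < (m : ℝ) + 1 := by positivity
  have h0 := Real.rpow_pos_of_pos hp (-(3 / 2))
  have h1 := fp_sq_ge m
  have h2 := rpow_sq _ hp
  set w := ((m : ℝ) + 1) ^ (-(3 / 2) : ℝ)
  have hm : (0 : ℝ) < ((m : ℝ) + 1) ^ 3 := by positivity
  apply abs_le_of_sq_le_sq' _ (fp_nonneg _ _) |>.2
  have h3 : ((m : ℝ) + 1 / 2) ^ 3 ≤ ((m : ℝ) + 1) ^ 3 := by gcongr; norm_num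
  have h4 := mul_le_mul_of_nonneg_left h3 (sq_nonneg (fp 1 (2 * m + 1)))
  have : (w / 6) ^ 2 * ((m : ℝ) + 1) ^ 3 ≤ fp 1 (2 * m + 1) ^ 2 * ((m : ℝ) + 1) ^ 3 := by
    nlinarith
  exact le_of_mul_le_mul_right this hm

/-- Lower bound: stay positive until time `t + g`. -/
theorem G_ge_fp (ω : ℕ → ℝ) (h : ℝ) (n : ℕ) : ∀ (g t x : ℕ),
    fp x g * (Real.exp (ω (t + g)) * G ω h n (t + g) 0) ≤ cf ω t x * G ω h (g + n) t x
  | 0, t, 0 => by simp [fp, cf]
  | 0, t, x + 1 => by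
    rw [fp, zero_mul]; exact (mul_pos (cf_pos _ _ _) (G_pos _ _ _ _ _)).le
  | g + 1, t, 0 => by
    rw [fp, zero_mul]; exact (mul_pos (cf_pos _ _ _) (G_pos _ _ _ _ _)).le
  | g + 1, t, x + 1 => by
    have h1 := G_ge_fp ω h n g (t + 1) (x + 2)
    have h2 := G_ge_fp ω h n g (t + 1) x
    have c1 : cf ω t ((x + 1 : ℕ) : ℤ) = 1 := if_neg (by omega)
    have c2 : cf ω (t + 1) ((x + 2 : ℕ) : ℤ) = 1 := if_neg (by omega)
    rw [c2, one_mul] at h1
    rw [fp, c1, one_mul, show g + 1 + n = g + n + 1 by ring, G_succ_pos _ _ _ _ _ (by omega),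
      show t + (g + 1) = t + 1 + g by ring, show ((x + 1 : ℕ) : ℤ) + 1 = ((x + 2 : ℕ) : ℤ) by omega,
      show ((x + 1 : ℕ) : ℤ) - 1 = (x : ℤ) by omega]
    linarith

theorem G_ge_excursion (ω : ℕ → ℝ) (h : ℝ) (n m t : ℕ) :
    ((m : ℝ) + 1) ^ (-(3 / 2) : ℝ) / 12 *
      (Real.exp (ω (t + 2 * (m + 1))) * G ω h n (t + 2 * (m + 1)) 0) ≤
        G ω h (2 * (m + 1) + n) t 0 := by
  have h1 := G_ge_fp ω h n (2 * m + 1) (t + 1) 1
  have c1 : cf ω (t + 1) ((1 : ℕ) : ℤ) = 1 := if_neg (by omega)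
  rw [c1, one_mul, show t + 1 + (2 * m + 1) = t + 2 * (m + 1) by ring] at h1
  rw [show 2 * (m + 1) + n = 2 * m + 1 + n + 1 by ring, G_succ_zero]
  have h2 := mul_pos (Real.exp_pos (-2 * h)) (G_pos ω h (2 * m + 1 + n) (t + 1) (-1))
  have h3 := mul_le_mul_of_nonneg_right (fp_lower m)
    (mul_pos (Real.exp_pos (ω (t + 2 * (m + 1)))) (G_pos ω h n (t + 2 * (m + 1)) 0)).le
  simp only [Nat.cast_one] at h1
  linarith

theorem ef_le_one (h : ℝ) (hh : 0 ≤ h) (x y : ℤ) : ef h x y ≤ 1 := by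
  unfold ef
  split_ifs
  · exact le_rfl
  · exact Real.exp_le_one_iff.mpr (by linarith)

/-- Upper bound: decomposition at the first zero. -/
theorem G_le_fp (ω : ℕ → ℝ) (h : ℝ) (hh : 0 ≤ h) (n : ℕ) : ∀ (t : ℕ) (x : ℤ),
    cf ω t x * G ω h n t x ≤ 1 + ∑ g ∈ range (n + 1),
      fp x.natAbs g * (Real.exp (ω (t + g)) * G ω h (n - g) (t + g) 0) := by
  induction n with
  | zero =>
    intro t x
    by_cases hx : x = 0
    · subst hx; simp [fp, cf]
    · have := mul_nonneg (fp_nonneg 0 x.natAbs) (Real.exp_pos (ω t)).le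
      simpa [cf, hx, G_zero] using this
  | succ n ih =>
    intro t x
    by_cases hx : x = 0
    · subst hx
      rw [sum_range_succ']
      simp [fp, cf]
    · obtain ⟨y, hy⟩ : ∃ y, x.natAbs = y + 1 := ⟨x.natAbs - 1, by omega⟩
      have c1 : cf ω t x = 1 := if_neg hx
      have h1 := ih (t + 1) (x + 1)
      have h2 := ih (t + 1) (x - 1)
      have k1 := mul_le_mul_of_nonneg_right (ef_le_one h hh x (x + 1))
        (mul_pos (cf_pos ω (t + 1) (x + 1)) (G_pos ω h n (t + 1) (x + 1))).le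
      have k2 := mul_le_mul_of_nonneg_right (ef_le_one h hh x (x - 1))
        (mul_pos (cf_pos ω (t + 1) (x - 1)) (G_pos ω h n (t + 1) (x - 1))).le
      rw [c1, one_mul, G_succ', hy, sum_range_succ']
      have e : ∑ g ∈ range (n + 1), fp (y + 1) (g + 1) *
          (Real.exp (ω (t + (g + 1))) * G ω h (n + 1 - (g + 1)) (t + (g + 1)) 0) =
          (∑ g ∈ range (n + 1), fp (y + 2) g *
            (Real.exp (ω (t + 1 + g)) * G ω h (n - g) (t + 1 + g) 0) +
          ∑ g ∈ range (n + 1), fp y g *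
            (Real.exp (ω (t + 1 + g)) * G ω h (n - g) (t + 1 + g) 0)) / 2 := by
        rw [← sum_add_distrib, sum_div]
        apply sum_congr rfl
        intro g _
        rw [fp, show t + (g + 1) = t + 1 + g by ring, show n + 1 - (g + 1) = n - g by omega]
        ring
      rw [e, fp, zero_mul]
      rcases (by omega : ((x + 1).natAbs = y + 2 ∧ (x - 1).natAbs = y) ∨
        ((x + 1).natAbs = y ∧ (x - 1).natAbs = y + 2)) with ⟨a, b⟩ | ⟨a, b⟩
      · rw [a] at h1; rw [b] at h2; linarith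
      · rw [a] at h1; rw [b] at h2; linarith

/-- The total weight of an excursion of length `g`. -/
noncomputable def exc (h : ℝ) (g : ℕ) : ℝ := (1 + Real.exp (-2 * h)) / 2 * fp 1 (g - 1)

theorem exc_nonneg (h : ℝ) (g : ℕ) : 0 ≤ exc h g :=
  mul_nonneg (by positivity) (fp_nonneg _ _)

theorem G_renewal (ω : ℕ → ℝ) (h : ℝ) (hh : 0 ≤ h) (N t : ℕ) :
    G ω h (N - t) t 0 ≤ 1 + ∑ u ∈ Ioc t N,
      exc h (u - t) * (Real.exp (ω u) * G ω h (N - u) u 0) := by
  rcases le_or_gt N t with hN | hN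
  · rw [Nat.sub_eq_zero_of_le hN, G_zero, Ioc_eq_empty (by omega)]; simp
  obtain ⟨n, rfl⟩ : ∃ n, N = t + (n + 1) := ⟨N - t - 1, by omega⟩
  have h1 := G_le_fp ω h hh n (t + 1) 1
  have h2 := G_le_fp ω h hh n (t + 1) (-1)
  have c1 : cf ω (t + 1) 1 = 1 := if_neg (by omega)
  have c2 : cf ω (t + 1) (-1) = 1 := if_neg (by omega)
  rw [c1, one_mul] at h1
  rw [c2, one_mul] at h2
  simp only [Int.natAbs_neg, Int.natAbs_one] at h1 h2
  have e : ∑ u ∈ Ioc t (t + (n + 1)),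
      exc h (u - t) * (Real.exp (ω u) * G ω h (t + (n + 1) - u) u 0) =
      (1 + Real.exp (-2 * h)) / 2 * ∑ g ∈ range (n + 1),
        fp 1 g * (Real.exp (ω (t + 1 + g)) * G ω h (n - g) (t + 1 + g) 0) := by
    rw [mul_sum, ← Finset.Ico_add_one_add_one_eq_Ioc, sum_Ico_eq_sum_range,
      show t + (n + 1) + 1 - (t + 1) = n + 1 by omega]
    apply sum_congr rfl
    intro g _
    rw [exc, show t + 1 + g - t - 1 = g by omega, show t + (n + 1) - (t + 1 + g) = n - g by omega]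
    ring
  rw [e, Nat.add_sub_cancel_left, G_succ_zero]
  have h3 : Real.exp (-2 * h) ≤ 1 := Real.exp_le_one_iff.mpr (by linarith)
  have h4 := mul_le_mul_of_nonneg_left h2 (Real.exp_pos (-2 * h)).le
  nlinarith

theorem exc_sum (h : ℝ) (n : ℕ) : ∑ g ∈ Ioc 0 n, exc h g ≤ (1 + Real.exp (-2 * h)) / 2 := by
  have e : ∑ g ∈ Ioc 0 n, exc h g = (1 + Real.exp (-2 * h)) / 2 * ∑ g ∈ range n, fp 1 g := by
    rw [mul_sum, ← Finset.Ico_add_one_add_one_eq_Ioc, sum_Ico_eq_sum_range,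
      show n + 1 - (0 + 1) = n by omega]
    apply sum_congr rfl
    intro g _
    rw [exc, show 0 + 1 + g - 1 = g by omega]
  rw [e]
  exact mul_le_of_le_one_right (by positivity) (fp_sum n 1)

theorem exc_le (h : ℝ) (hh : 0 ≤ h) (g : ℕ) (hg : 0 < g) :
    exc h g ≤ 2 * (g : ℝ) ^ (-(3 / 2) : ℝ) := by
  obtain ⟨m, rfl⟩ : ∃ m, g = m + 1 := ⟨g - 1, by omega⟩
  have h1 := fp_upper m
  have h3 : Real.exp (-2 * h) ≤ 1 := Real.exp_le_one_iff.mpr (by linarith)
  have h4 := fp_nonneg m 1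
  rw [exc, Nat.add_sub_cancel]
  push_cast
  nlinarith

/-- Comparison of environments. -/
theorem G_le_mul (ω ω' d : ℕ → ℝ) (h : ℝ) (hd : ∀ i, 0 ≤ d i) (hω : ∀ i, ω i ≤ ω' i + d i)
    (n : ℕ) : G ω h n 0 0 ≤ Real.exp (∑ i ∈ range n, d (i + 1)) * G ω' h n 0 0 := by
  unfold G
  rw [← mul_div_assoc, mul_sum]
  apply div_le_div_of_nonneg_right _ (by positivity)
  apply sum_le_sum
  intro ε _
  rw [← Real.exp_add, Real.exp_le_exp]
  unfold hamG
  rw [← sum_add_distrib]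
  apply sum_le_sum
  intro i _
  unfold term
  have h1 := hd (i + 1)
  have h2 := hω (i + 1)
  simp only [zero_add]
  split_ifs <;> linarith

end Pool.Agent.Lib.MP_11b949_pr
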