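import Mathlib
import Pool.Agent.Lib.MP_11b949_pr.First

set_option autoImplicit false

open Finset
open scoped ENNReal NNReal

namespace Pool.Agent.Lib.MP_11b949_pr

/-- Renewal partition function pinned at `a` and `b`, without the weights of the end points. -/
noncomputable def gr (k ξ : ℕ → ℝ≥0∞) (a b : ℕ) : ℝ≥0∞ :=
  k (b - a) + ∑ u ∈ (Ioo a b).attach, k (u.1 - a) * (ξ u.1 * gr k ξ u.1 b)
termination_by b - a
decreasing_by have := mem_Ioo.1 u.2; omega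

theorem gr_eq (k ξ : ℕ → ℝ≥0∞) (a b : ℕ) :
    gr k ξ a b = k (b - a) + ∑ u ∈ Ioo a b, k (u - a) * (ξ u * gr k ξ u b) := by
  rw [gr, sum_attach (Ioo a b) (fun u => k (u - a) * (ξ u * gr k ξ u b))]

theorem down_ind (b : ℕ) (Q : ℕ → Prop) (h : ∀ a, (∀ u, a < u → u ≤ b → Q u) → Q a) (a : ℕ) :
    Q a := by
  induction hn : b - a using Nat.strong_induction_on generalizing a with
  | _ n ih => exact h a fun u h1 h2 => ih (b - u) (by omega) u rfl

theorem gr_zero (k : ℕ → ℝ≥0∞) (a b : ℕ) : gr k (fun _ => 0) a b = k (b - a) := by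
  rw [gr_eq]; simp

theorem gr_add (k ξ y : ℕ → ℝ≥0∞) (b a : ℕ) :
    gr k (fun i => ξ i + y i) a b = gr k ξ a b +
      ∑ v ∈ Ioo a b, gr k ξ a v * (y v * gr k (fun i => ξ i + y i) v b) := by
  induction a using down_ind b with
  | _ a ih =>
    set Z := gr k (fun i => ξ i + y i) with hZ
    have e1 : ∑ u ∈ Ioo a b, k (u - a) * ((ξ u + y u) * Z u b) =
        ∑ u ∈ Ioo a b, k (u - a) * (ξ u * gr k ξ u b) + (∑ u ∈ Ioo a b, k (u - a) * (y u * Z u b) +
          ∑ u ∈ Ioo a b, ∑ v ∈ Ioo u b, k (u - a) * (ξ u * gr k ξ u v) * (y v * Z v b)) := by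
      rw [← sum_add_distrib, ← sum_add_distrib]
      apply sum_congr rfl
      intro u hu
      have hu' := mem_Ioo.1 hu
      have e : ∑ v ∈ Ioo u b, k (u - a) * (ξ u * gr k ξ u v) * (y v * Z v b) =
          k (u - a) * (ξ u * ∑ v ∈ Ioo u b, gr k ξ u v * (y v * Z v b)) := by
        rw [mul_sum, mul_sum]
        exact sum_congr rfl fun v _ => by ring
      rw [e, add_mul, mul_add]
      nth_rewrite 1 [ih u hu'.1 hu'.2.le]
      ring
    have e2 : ∑ u ∈ Ioo a b, ∑ v ∈ Ioo u b, k (u - a) * (ξ u * gr k ξ u v) * (y v * Z v b) =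
        ∑ v ∈ Ioo a b, ∑ u ∈ Ioo a v, k (u - a) * (ξ u * gr k ξ u v) * (y v * Z v b) :=
      sum_comm' fun u v => by simp only [mem_Ioo]; omega
    have e3 : Z a b = k (b - a) + ∑ u ∈ Ioo a b, k (u - a) * ((ξ u + y u) * Z u b) := gr_eq _ _ _ _
    rw [e3, e1, e2, gr_eq k ξ a b, add_assoc, ← sum_add_distrib]
    congr 2
    apply sum_congr rfl
    intro v _
    rw [gr_eq k ξ a v, add_mul, sum_mul]

theorem G_le_gr (ω : ℕ → ℝ) (h : ℝ) (hh : 0 ≤ h) (ξ : ℕ → ℝ≥0∞)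
    (hξ : ∀ u, ENNReal.ofReal (Real.exp (ω u)) ≤ ξ u) (N t : ℕ) :
    ENNReal.ofReal (G ω h (N - t) t 0) ≤
      1 + ∑ u ∈ Ioc t N, gr (fun g => ENNReal.ofReal (exc h g)) ξ t u * ξ u := by
  induction t using down_ind N with
  | _ t ih =>
    set k : ℕ → ℝ≥0∞ := fun g => ENNReal.ofReal (exc h g) with hk
    have hnn : ∀ u, 0 ≤ exc h (u - t) * (Real.exp (ω u) * G ω h (N - u) u 0) := fun u =>
      mul_nonneg (exc_nonneg _ _) (mul_pos (Real.exp_pos _) (G_pos _ _ _ _ _)).le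
    refine (ENNReal.ofReal_le_ofReal (G_renewal ω h hh N t)).trans ?_
    rw [ENNReal.ofReal_add zero_le_one (sum_nonneg fun u _ => hnn u), ENNReal.ofReal_one,
      ENNReal.ofReal_sum_of_nonneg fun u _ => hnn u]
    gcongr 1 + ?_
    calc ∑ u ∈ Ioc t N, ENNReal.ofReal (exc h (u - t) * (Real.exp (ω u) * G ω h (N - u) u 0))
        ≤ ∑ u ∈ Ioc t N, (k (u - t) * ξ u + ∑ v ∈ Ioc u N, k (u - t) * (ξ u * gr k ξ u v) * ξ v) := by
          apply sum_le_sum
          intro u hu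
          have hu' := mem_Ioc.1 hu
          rw [ENNReal.ofReal_mul (exc_nonneg _ _), ENNReal.ofReal_mul (Real.exp_pos _).le]
          have e : ∑ v ∈ Ioc u N, k (u - t) * (ξ u * gr k ξ u v) * ξ v =
              k (u - t) * (ξ u * ∑ v ∈ Ioc u N, gr k ξ u v * ξ v) := by
            rw [mul_sum, mul_sum]
            exact sum_congr rfl fun v _ => by ring
          rw [e]
          calc _ ≤ k (u - t) * (ξ u * (1 + ∑ v ∈ Ioc u N, gr k ξ u v * ξ v)) := by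
                gcongr
                · exact hξ u
                · exact ih u hu'.1 hu'.2
            _ = _ := by ring
      _ = _ := by
          have e2 : ∑ u ∈ Ioc t N, ∑ v ∈ Ioc u N, k (u - t) * (ξ u * gr k ξ u v) * ξ v =
              ∑ v ∈ Ioc t N, ∑ u ∈ Ioo t v, k (u - t) * (ξ u * gr k ξ u v) * ξ v :=
            sum_comm' fun u v => by simp only [mem_Ioo, mem_Ioc]; omega
          rw [sum_add_distrib, e2, ← sum_add_distrib]
          apply sum_congr rfl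
          intro v _
          rw [gr_eq k ξ t v, add_mul, sum_mul]

theorem sum_le_of_inj {u : ℕ → ℝ≥0∞} {U : ℝ≥0∞} (hU : ∀ n, ∑ g ∈ Ioc 0 n, u g ≤ U)
    (s : Finset ℕ) (φ : ℕ → ℕ) (h1 : ∀ x ∈ s, 0 < φ x)
    (h2 : ∀ x ∈ s, ∀ y ∈ s, φ x = φ y → x = y) : ∑ x ∈ s, u (φ x) ≤ U := by
  rw [← sum_image h2]
  refine le_trans (sum_le_sum_of_subset ?_) (hU (s.sup φ))
  intro g hg
  obtain ⟨x, hx, rfl⟩ := mem_image.1 hg
  exact mem_Ioc.2 ⟨h1 x hx, le_sup hx⟩

/-- `V` is a subsolution of the renewal equation with kernel `u` and contact weight `ρ`. -/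
def SubSol (u : ℕ → ℝ≥0∞) (ρ : ℝ≥0∞) (V : ℕ → ℕ → ℝ≥0∞) : Prop :=
  ∀ a b, a < b → V a b ≤ u (b - a) + ∑ v ∈ Ioo a b, u (v - a) * (ρ * V v b)

theorem SubSol.sum_le {u : ℕ → ℝ≥0∞} {ρ U S : ℝ≥0∞} {V : ℕ → ℕ → ℝ≥0∞} (hV : SubSol u ρ V)
    (hU : ∀ n, ∑ g ∈ Ioc 0 n, u g ≤ U) (hS : U + ρ * U * S ≤ S) (b c : ℕ) :
    ∑ a ∈ Ico c b, V a b ≤ S := by
  induction c using down_ind b with
  | _ c ih =>
    rcases le_or_gt b c with hb | hb
    · rw [Ico_eq_empty (by omega)]; simp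
    calc ∑ a ∈ Ico c b, V a b
        ≤ ∑ a ∈ Ico c b, (u (b - a) + ∑ v ∈ Ioo a b, u (v - a) * (ρ * V v b)) :=
          sum_le_sum fun a ha => hV a b (mem_Ico.1 ha).2
      _ = ∑ a ∈ Ico c b, u (b - a) +
          ∑ v ∈ Ico (c + 1) b, (∑ a ∈ Ico c v, u (v - a)) * (ρ * V v b) := by
          rw [sum_add_distrib]
          congr 1
          simp only [sum_mul]
          exact sum_comm' fun a v => by simp only [mem_Ioo, mem_Ico]; omega
      _ ≤ U + ∑ v ∈ Ico (c + 1) b, U * (ρ * V v b) := by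
          have h1 : ∀ v, ∑ a ∈ Ico c v, u (v - a) ≤ U := fun v =>
            sum_le_of_inj hU _ (fun a => v - a) (fun x hx => by have := mem_Ico.1 hx; omega)
              (fun x hx y hy e => by have := mem_Ico.1 hx; have := mem_Ico.1 hy; omega)
          gcongr with v _
          · exact h1 b
          · exact h1 v
      _ ≤ U + ρ * U * S := by
          rw [← mul_sum, ← mul_sum, ← mul_assoc, mul_comm U ρ]
          gcongr
          exact ih (c + 1) (by omega) (by omega)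
      _ ≤ S := hS

theorem SubSol.pt_le {u W : ℕ → ℝ≥0∞} {ρ U S C C' κ κ' : ℝ≥0∞} {V : ℕ → ℕ → ℝ≥0∞}
    (hV : SubSol u ρ V) (hU : ∀ n, ∑ g ∈ Ioc 0 n, u g ≤ U) (hS : U + ρ * U * S ≤ S)
    (hC : ∀ g, 0 < g → u g ≤ C * W g)
    (hW : ∀ g m, 0 < g → 0 < m → W m ≤ κ * W (g + m) ∨ W g ≤ κ' * W (g + m))
    (hC' : (C + ρ * C * κ' * S) + ρ * U * κ * C' ≤ C') (b a : ℕ) :
    a < b → V a b ≤ C' * W (b - a) := by
  induction a using down_ind b with
  | _ a ih =>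
    intro hab
    have h1 : ∑ v ∈ Ioo a b, u (v - a) ≤ U :=
      sum_le_of_inj hU _ (fun v => v - a) (fun x hx => by have := mem_Ioo.1 hx; omega)
        (fun x hx y hy e => by have := mem_Ioo.1 hx; have := mem_Ioo.1 hy; omega)
    have h2 : ∑ v ∈ Ioo a b, V v b ≤ S := by
      rw [← Finset.Ico_add_one_left_eq_Ioo]
      exact hV.sum_le hU hS b _
    calc V a b ≤ u (b - a) + ∑ v ∈ Ioo a b, u (v - a) * (ρ * V v b) := hV a b hab
      _ ≤ C * W (b - a) + ∑ v ∈ Ioo a b, (ρ * C * κ' * W (b - a) * V v b +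
            ρ * κ * C' * W (b - a) * u (v - a)) := by
          gcongr with v hv
          · exact hC _ (by omega)
          · have hv' := mem_Ioo.1 hv
            have e : v - a + (b - v) = b - a := by omega
            rcases hW (v - a) (b - v) (by omega) (by omega) with h | h
            · rw [e] at h
              refine le_trans ?_ le_add_self
              calc u (v - a) * (ρ * V v b) ≤ u (v - a) * (ρ * (C' * (κ * W (b - a)))) := by
                    gcongr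
                    exact (ih v hv'.1 hv'.2.le hv'.2).trans (by gcongr)
                _ = _ := by ring
            · rw [e] at h
              refine le_trans ?_ le_self_add
              calc u (v - a) * (ρ * V v b) ≤ C * (κ' * W (b - a)) * (ρ * V v b) := by
                    gcongr
                    exact (hC _ (by omega)).trans (by gcongr)
                _ = _ := by ring
      _ ≤ C * W (b - a) + (ρ * C * κ' * W (b - a) * S + ρ * κ * C' * W (b - a) * U) := by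
          rw [sum_add_distrib, ← mul_sum, ← mul_sum]
          gcongr
      _ = ((C + ρ * C * κ' * S) + ρ * U * κ * C') * W (b - a) := by ring
      _ ≤ C' * W (b - a) := by gcongr

theorem exists_fix (A θ : ℝ≥0∞) (hA : A ≠ ⊤) (hθ : θ < 1) : ∃ S : ℝ≥0∞, S ≠ ⊤ ∧ A + θ * S ≤ S := by
  lift A to ℝ≥0 using hA
  lift θ to ℝ≥0 using (hθ.trans ENNReal.one_lt_top).ne
  have h1 : (θ : ℝ) < 1 := by exact_mod_cast hθ
  have h2 : 0 < 1 - (θ : ℝ) := by linarith
  refine ⟨ENNReal.ofReal (A / (1 - θ)), ENNReal.ofReal_ne_top, ?_⟩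
  have h3 : (0 : ℝ) ≤ A / (1 - θ) := div_nonneg A.coe_nonneg h2.le
  rw [← ENNReal.ofReal_coe_nnreal (p := A), ← ENNReal.ofReal_coe_nnreal (p := θ),
    ← ENNReal.ofReal_mul θ.coe_nonneg,
    ← ENNReal.ofReal_add A.coe_nonneg (mul_nonneg θ.coe_nonneg h3)]
  apply ENNReal.ofReal_le_ofReal
  apply le_of_eq
  field_simp
  ring

theorem exists_kappa (θ : ℝ≥0∞) (hθ : θ < 1) : ∃ r : ℝ, 1 < r ∧ θ * ENNReal.ofReal (r ^ 2) < 1 := by
  lift θ to ℝ≥0 using (hθ.trans ENNReal.one_lt_top).ne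
  have h1 : (θ : ℝ) < 1 := by exact_mod_cast hθ
  have h0 : (0 : ℝ) ≤ θ := θ.2
  refine ⟨Real.sqrt (2 / (1 + θ)), ?_, ?_⟩
  · rw [Real.lt_sqrt zero_le_one, lt_div_iff₀ (by positivity)]; linarith
  · rw [Real.sq_sqrt (by positivity), ← ENNReal.ofReal_coe_nnreal,
      ← ENNReal.ofReal_mul h0, ENNReal.ofReal_lt_one, ← mul_div_assoc, div_lt_one (by positivity)]
    linarith

/-- The polynomial weight `g ^ (-β)`. -/
noncomputable def wt (β : ℝ) (g : ℕ) : ℝ≥0∞ := ENNReal.ofReal ((g : ℝ) ^ (-β))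

theorem wt_rpow (β γ : ℝ) (hγ : 0 ≤ γ) (g : ℕ) : wt β g ^ γ = wt (β * γ) g := by
  rw [wt, wt, ENNReal.ofReal_rpow_of_nonneg (by positivity) hγ, ← Real.rpow_mul (by positivity),
    neg_mul]

theorem wt_le (β r : ℝ) (h0 : 0 ≤ β) (h2 : β ≤ 2) (hr : 1 ≤ r) (x y : ℕ) (hx : 0 < x) (hy : 0 < y)
    (h : (y : ℝ) ≤ r * x) : wt β x ≤ ENNReal.ofReal (r ^ 2) * wt β y := by
  have hx' : (0 : ℝ) < x := by exact_mod_cast hx
  have hy' : (0 : ℝ) < y := by exact_mod_cast hy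
  rw [wt, wt, ← ENNReal.ofReal_mul (by positivity)]
  apply ENNReal.ofReal_le_ofReal
  have h1 : (y : ℝ) ^ β ≤ r ^ 2 * (x : ℝ) ^ β := by
    calc (y : ℝ) ^ β ≤ (r * x) ^ β := Real.rpow_le_rpow hy'.le h h0
      _ = r ^ β * (x : ℝ) ^ β := Real.mul_rpow (by linarith) hx'.le
      _ ≤ r ^ (2 : ℝ) * (x : ℝ) ^ β := by
          gcongr
      _ = _ := by rw [Real.rpow_two]
  rw [Real.rpow_neg hx'.le, Real.rpow_neg hy'.le, ← div_eq_mul_inv, ← one_div,
    div_le_div_iff₀ (by positivity) (by positivity), one_mul]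
  exact h1

theorem wt_sum (β : ℝ) (hβ : 1 < β) : ∃ U : ℝ≥0∞, U ≠ ⊤ ∧ ∀ n, ∑ g ∈ Ioc 0 n, wt β g ≤ U := by
  have hs : Summable fun n : ℕ => (n : ℝ) ^ (-β) := Real.summable_nat_rpow.2 (by linarith)
  refine ⟨ENNReal.ofReal (∑' n : ℕ, (n : ℝ) ^ (-β)), ENNReal.ofReal_ne_top, fun n => ?_⟩
  simp only [wt]
  rw [← ENNReal.ofReal_sum_of_nonneg fun g _ => by positivity]
  exact ENNReal.ofReal_le_ofReal (hs.sum_le_tsum _ fun g _ => by positivity)

theorem sub_bound (β : ℝ) (h0 : 0 ≤ β) (h2 : β ≤ 2) (C U ρ : ℝ≥0∞) (hC : C ≠ ⊤) (hU : U ≠ ⊤)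
    (hρ : ρ ≠ ⊤) (hθ : ρ * U < 1) : ∃ C' : ℝ≥0∞, C' ≠ ⊤ ∧ ∀ (u : ℕ → ℝ≥0∞) (V : ℕ → ℕ → ℝ≥0∞),
      SubSol u ρ V → (∀ n, ∑ g ∈ Ioc 0 n, u g ≤ U) → (∀ g, 0 < g → u g ≤ C * wt β g) →
        ∀ a b, a < b → V a b ≤ C' * wt β (b - a) := by
  obtain ⟨S, hS, hS'⟩ := exists_fix U (ρ * U) hU hθ
  obtain ⟨r, hr, hr'⟩ := exists_kappa _ hθ
  have hr1 : 0 < r - 1 := by linarith
  obtain ⟨C', hC', hC''⟩ := exists_fix (C + ρ * C * ENNReal.ofReal ((r / (r - 1)) ^ 2) * S) _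
    (by finiteness) hr'
  refine ⟨C', hC', fun u V hV h1 h3 a b => hV.pt_le h1 hS' h3 ?_ hC'' b a⟩
  intro g m hg hm
  rcases le_or_gt ((g + m : ℕ) : ℝ) (r * m) with h | h
  · exact Or.inl (wt_le β r h0 h2 hr.le m _ hm (by omega) h)
  · refine Or.inr (wt_le β _ h0 h2 (by rw [le_div_iff₀ hr1]; linarith) g _ hg (by omega) ?_)
    push_cast at h ⊢
    rw [div_mul_eq_mul_div, le_div_iff₀ hr1]
    nlinarith

end Pool.Agent.Lib.MP_11b949_pr
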