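import Mathlib
import Pool.Agent.Lib.MP_11b949_pr.Walk

set_option autoImplicit false

open MeasureTheory ProbabilityTheory Filter Topology
open scoped ENNReal NNReal

namespace Pool.Agent.Lib.MP_11b949_pr

/-- Subexponential growth. -/
def SubExp (u : ℕ → ℝ) : Prop := ∀ ε : ℝ, 0 < ε → ∀ᶠ n : ℕ in atTop, u n ≤ Real.exp (ε * n)

theorem eventually_lin (ε : ℝ) (hε : 0 < ε) :
    ∀ᶠ n : ℕ in atTop, 2 * ((n : ℝ) + 1) ≤ Real.exp (ε * n) := by
  have h1 : ∀ᶠ n : ℕ in atTop, max 1 (16 / ε ^ 2) ≤ (n : ℝ) :=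
    tendsto_natCast_atTop_atTop.eventually_ge_atTop _
  filter_upwards [h1] with n hn
  have h2 : (1 : ℝ) ≤ n := le_trans (le_max_left _ _) hn
  have h3 : 16 / ε ^ 2 ≤ n := le_trans (le_max_right _ _) hn
  rw [div_le_iff₀ (by positivity)] at h3
  have h4 : ε * n / 2 + 1 ≤ Real.exp (ε * n / 2) := Real.add_one_le_exp _
  have h5 : Real.exp (ε * n) = Real.exp (ε * n / 2) * Real.exp (ε * n / 2) := by
    rw [← Real.exp_add]; congr 1; ring
  have h6 : 0 ≤ ε * n / 2 := by positivity
  rw [h5]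
  have h7 : (ε * n / 2 + 1) * (ε * n / 2 + 1) ≤ Real.exp (ε * n / 2) * Real.exp (ε * n / 2) :=
    mul_le_mul h4 h4 (by linarith) (Real.exp_pos _).le
  nlinarith

theorem SubExp.two_mul {u v : ℕ → ℝ} (hu : SubExp u) (h : ∀ n, v n ≤ 2 * u n) : SubExp v := by
  intro ε hε
  filter_upwards [hu (ε / 2) (by linarith), eventually_lin (ε / 2) (by linarith)] with n h1 h2
  have h5 : Real.exp (ε * n) = Real.exp (ε / 2 * n) * Real.exp (ε / 2 * n) := by
    rw [← Real.exp_add]; congr 1; ring
  have h3 : (0 : ℝ) ≤ n := Nat.cast_nonneg n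
  have h4 := Real.exp_pos (ε / 2 * n)
  rw [h5]
  have := h n
  nlinarith

theorem SubExp.convex {ω₁ ω₂ : ℕ → ℝ} {h : ℝ} (h1 : SubExp fun n => G ω₁ h n 0 0)
    (h2 : SubExp fun n => G ω₂ h n 0 0) (a b : ℝ) (ha : 0 ≤ a) (hb : 0 ≤ b) (hab : a + b = 1) :
    SubExp fun n => G (fun i => a * ω₁ i + b * ω₂ i) h n 0 0 := by
  intro ε hε
  filter_upwards [h1 ε hε, h2 ε hε] with n k1 k2
  refine (G_convex ω₁ ω₂ h a b ha hb hab n 0 0).trans ?_
  have k3 := mul_le_mul_of_nonneg_left k1 ha
  have k4 := mul_le_mul_of_nonneg_left k2 hb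
  have : a * Real.exp (ε * n) + b * Real.exp (ε * n) = Real.exp (ε * n) := by
    rw [← add_mul, hab, one_mul]
  linarith

theorem tendsto_iff_subExp (η : ℕ → ℝ) (lam h s : ℝ) :
    Tendsto (fun n : ℕ => Real.log (partFn η lam h s n) / n) atTop (𝓝 h) ↔
      SubExp fun n => G (fun i => lam * (1 + s * η i)) h n 0 0 := by
  set ω : ℕ → ℝ := fun i => lam * (1 + s * η i) with hω
  have e : ∀ n : ℕ, 1 ≤ n → Real.log (partFn η lam h s n) / n = h + Real.log (G ω h n 0 0) / n := by
    intro n hn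
    have : (n : ℝ) ≠ 0 := by exact_mod_cast (by omega : n ≠ 0)
    rw [partFn_eq, Real.log_mul (Real.exp_pos _).ne' (G_pos _ _ _ _ _).ne', Real.log_exp]
    field_simp
    rfl
  constructor
  · intro H ε hε
    have := (tendsto_order.1 H).2 (h + ε) (by linarith)
    filter_upwards [this, eventually_ge_atTop 1] with n h1 h2
    rw [e n h2] at h1
    have h3 : (0 : ℝ) < n := by exact_mod_cast h2
    have h4 : Real.log (G ω h n 0 0) / n < ε := by linarith
    rw [div_lt_iff₀ h3, Real.log_lt_iff_lt_exp (G_pos _ _ _ _ _)] at h4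
    exact h4.le
  · intro H
    rw [tendsto_order]
    constructor
    · intro a ha
      filter_upwards [eventually_lin ((h - a) / 2) (by linarith), eventually_ge_atTop 1]
        with n h1 h2
      rw [e n h2]
      have h3 : (0 : ℝ) < n := by exact_mod_cast h2
      have h4 := G_lower_zero ω h n 0
      have h5 : Real.exp (-((h - a) / 2 * n)) ≤ G ω h n 0 0 := by
        refine le_trans ?_ h4
        rw [Real.exp_neg, ← one_div]
        exact one_div_le_one_div_of_le (by positivity) h1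
      have h6 : -((h - a) / 2 * n) ≤ Real.log (G ω h n 0 0) :=
        (Real.le_log_iff_exp_le (G_pos _ _ _ _ _)).mpr h5
      have h7 : -((h - a) / 2) ≤ Real.log (G ω h n 0 0) / n := by
        rw [le_div_iff₀ h3]; linarith
      linarith
    · intro a ha
      filter_upwards [H ((a - h) / 2) (by linarith), eventually_ge_atTop 1] with n h1 h2
      rw [e n h2]
      have h3 : (0 : ℝ) < n := by exact_mod_cast h2
      have h6 : Real.log (G ω h n 0 0) ≤ (a - h) / 2 * n :=
        (Real.log_le_iff_le_exp (G_pos _ _ _ _ _)).mpr h1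
      have h7 : Real.log (G ω h n 0 0) / n ≤ (a - h) / 2 := by
        rw [div_le_iff₀ h3]; linarith
      linarith

variable {Ω : Type} [MeasurableSpace Ω] {P : Measure Ω} [IsProbabilityMeasure P]

theorem annealed (X : ℕ → Ω → ℝ) (hm : ∀ i, Measurable (X i)) (hind : iIndepFun X P)
    (hE : ∀ i, ∫⁻ ω, ENNReal.ofReal (Real.exp (X i ω)) ∂P ≤ 1) (h : ℝ) (hh : 0 ≤ h) :
    ∀ᵐ ω ∂P, SubExp fun n => G (fun i => X i ω) h n 0 0 := by
  let F : (n : ℕ) → (Fin n → Bool) → ℕ → ℝ → ℝ≥0∞ := fun n ε i x =>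
    if pos ε (i + 1) = 0 then ENNReal.ofReal (Real.exp x) else 1
  have hF : ∀ n ε i, Measurable (F n ε i) := by
    intro n ε i
    simp only [F]
    split_ifs
    · exact ENNReal.measurable_ofReal.comp Real.measurable_exp
    · exact measurable_const
  let B : ℕ → Ω → ℝ≥0∞ := fun n ω =>
    (∑ ε : Fin n → Bool, ∏ i ∈ Finset.range n, F n ε i (X (i + 1) ω)) / 2 ^ n
  have hBm' : ∀ n (ε : Fin n → Bool),
      Measurable fun ω => ∏ i ∈ Finset.range n, F n ε i (X (i + 1) ω) := by
    intro n ε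
    exact Finset.measurable_prod _ (fun i _ => (hF n ε i).comp (hm _))
  have hBm : ∀ n, Measurable (B n) := by
    intro n
    exact (Finset.measurable_sum _ (fun ε _ => hBm' n ε)).div_const _
  have hB1 : ∀ n, ∫⁻ ω, B n ω ∂P ≤ 1 := by
    intro n
    simp only [B, div_eq_mul_inv]
    rw [lintegral_mul_const _ (Finset.measurable_sum _ (fun ε _ => hBm' n ε)),
      lintegral_finsetSum _ (fun ε _ => hBm' n ε)]
    have h1 : ∀ ε : Fin n → Bool,
        ∫⁻ ω, ∏ i ∈ Finset.range n, F n ε i (X (i + 1) ω) ∂P ≤ 1 := by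
      intro ε
      have hi : iIndepFun (fun i => F n ε i ∘ X (i + 1)) P :=
        (hind.precomp (g := fun i => i + 1) (add_left_injective 1)).comp (F n ε) (hF n ε)
      have := lintegral_prod_eq_prod_lintegral_of_indepFun (Finset.range n) _ hi
        (fun i => (hF n ε i).comp (hm _))
      simp only [Function.comp] at this
      rw [this]
      apply Finset.prod_le_one'
      intro i _
      simp only [F]
      split_ifs
      · exact hE _
      · simp
    calc (∑ ε : Fin n → Bool, ∫⁻ ω, ∏ i ∈ Finset.range n, F n ε i (X (i + 1) ω) ∂P) * (2 ^ n)⁻¹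
        ≤ (∑ _ε : Fin n → Bool, (1 : ℝ≥0∞)) * (2 ^ n)⁻¹ := by
          gcongr with ε _
          exact h1 ε
      _ = 1 := by
          simp only [Finset.sum_const, Finset.card_univ, Fintype.card_fun, Fintype.card_bool,
            Fintype.card_fin, nsmul_eq_mul, mul_one, Nat.cast_pow, Nat.cast_ofNat]
          exact ENNReal.mul_inv_cancel (by simp) (by simp)
  have hGB : ∀ n ω, ENNReal.ofReal (G (fun i => X i ω) h n 0 0) ≤ B n ω := by
    intro n ω
    refine (ENNReal.ofReal_le_ofReal (G_le_prod _ h hh n)).trans (le_of_eq ?_)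
    have hnn : ∀ (ε : Fin n → Bool) (i : ℕ),
        0 ≤ (if pos ε (i + 1) = 0 then Real.exp (X (i + 1) ω) else 1) := by
      intro ε i
      split_ifs
      · exact (Real.exp_pos _).le
      · exact zero_le_one
    rw [ENNReal.ofReal_div_of_pos (by positivity), ENNReal.ofReal_sum_of_nonneg
      (fun ε _ => Finset.prod_nonneg (fun i _ => hnn ε i))]
    simp only [B]
    congr 1
    · apply Finset.sum_congr rfl
      intro ε _
      rw [ENNReal.ofReal_prod_of_nonneg (fun i _ => hnn ε i)]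
      apply Finset.prod_congr rfl
      intro i _
      simp only [F]
      split_ifs <;> simp
    · rw [ENNReal.ofReal_pow (by norm_num)]; simp
  have key : ∀ ε : ℝ, 0 < ε → ∀ᵐ ω ∂P, ∀ᶠ n : ℕ in atTop,
      G (fun i => X i ω) h n 0 0 ≤ Real.exp (ε * n) := by
    intro ε hε
    let s : ℕ → Set Ω := fun n => {ω | ENNReal.ofReal (Real.exp (ε * n)) ≤ B n ω}
    have hs : ∀ n, P (s n) ≤ ENNReal.ofReal (Real.exp (-ε)) ^ n := by
      intro n
      have h1 := meas_ge_le_lintegral_div (μ := P) (hBm n).aemeasurable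
        (ε := ENNReal.ofReal (Real.exp (ε * n))) (by simpa using Real.exp_pos _) (by simp)
      refine h1.trans ((ENNReal.div_le_div_right (hB1 n) _).trans (le_of_eq ?_))
      rw [one_div, ← ENNReal.ofReal_inv_of_pos (Real.exp_pos _), ← Real.exp_neg,
        ← ENNReal.ofReal_pow (Real.exp_pos _).le, ← Real.exp_nat_mul]
      congr 2
      ring
    have hsum : ∑' n, P (s n) ≠ ∞ := by
      refine ne_top_of_le_ne_top ?_ (ENNReal.tsum_le_tsum hs)
      rw [ENNReal.tsum_geometric]
      apply ENNReal.inv_ne_top.mpr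
      have : ENNReal.ofReal (Real.exp (-ε)) < 1 := by
        rw [ENNReal.ofReal_lt_one]
        exact Real.exp_lt_one_iff.mpr (by linarith)
      exact (tsub_pos_of_lt this).ne'
    filter_upwards [ae_eventually_notMem hsum] with ω hω
    filter_upwards [hω] with n hn
    have h1 : B n ω < ENNReal.ofReal (Real.exp (ε * n)) := not_le.mp hn
    have h2 := (hGB n ω).trans_lt h1
    exact ((ENNReal.ofReal_lt_ofReal_iff (Real.exp_pos _)).mp h2).le
  have key' : ∀ᵐ ω ∂P, ∀ k : ℕ, ∀ᶠ n : ℕ in atTop,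
      G (fun i => X i ω) h n 0 0 ≤ Real.exp (1 / ((k : ℝ) + 1) * n) :=
    ae_all_iff.mpr fun k => key _ (by positivity)
  filter_upwards [key'] with ω hω
  intro ε hε
  obtain ⟨k, hk⟩ := exists_nat_one_div_lt hε
  filter_upwards [hω k] with n hn
  refine hn.trans (Real.exp_le_exp.mpr ?_)
  exact mul_le_mul_of_nonneg_right hk.le (Nat.cast_nonneg n)

theorem annealed_iid (η : ℕ → Ω → ℝ) (hm : ∀ i, Measurable (η i)) (hind : iIndepFun η P)
    (hid : ∀ i, IdentDistrib (η i) (η 0) P P) (φ : ℝ → ℝ) (hφ : Measurable φ) (k : ℕ)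
    (hint : Integrable (fun ω => Real.exp (φ (η 0 ω))) P)
    (hE : ∫ ω, Real.exp (φ (η 0 ω)) ∂P ≤ 1) (h : ℝ) (hh : 0 ≤ h) :
    ∀ᵐ ω ∂P, SubExp fun n => G (fun i => φ (η (i + k) ω)) h n 0 0 := by
  apply annealed (fun i ω => φ (η (i + k) ω)) (fun i => hφ.comp (hm _))
    ((hind.precomp (g := fun i => i + k) (add_left_injective k)).comp (fun _ => φ) (fun _ => hφ))
    _ h hh
  intro i
  have h1 : IdentDistrib ((fun x => ENNReal.ofReal (Real.exp (φ x))) ∘ η (i + k))
      ((fun x => ENNReal.ofReal (Real.exp (φ x))) ∘ η 0) P P :=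
    (hid (i + k)).comp (ENNReal.measurable_ofReal.comp (Real.measurable_exp.comp hφ))
  have h2 := h1.lintegral_eq
  simp only [Function.comp] at h2
  rw [h2, ← ofReal_integral_eq_lintegral_ofReal hint
    (Eventually.of_forall fun ω => (Real.exp_pos _).le)]
  exact ENNReal.ofReal_le_one.mpr hE

omit [IsProbabilityMeasure P] in
theorem freeEnergyEq_iff (η : ℕ → Ω → ℝ) (lam h s : ℝ) :
    FreeEnergyEq P η lam h s h ↔
      ∀ᵐ ω ∂P, SubExp fun n => G (fun i => lam * (1 + s * η i ω)) h n 0 0 := by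
  unfold FreeEnergyEq
  simp only [tendsto_iff_subExp]

theorem measurable_bonus (h : ℝ) : Measurable (bonus h) := by
  unfold bonus
  fun_prop

theorem openness (η : ℕ → Ω → ℝ) (hm : ∀ i, Measurable (η i)) (hind : iIndepFun η P)
    (hid : ∀ i, IdentDistrib (η i) (η 0) P P) (s lam h Λ : ℝ) (hlam : 0 ≤ lam) (hh : 0 ≤ h)
    (hΛ : lam < Λ) (hint : Integrable (fun ω => Real.exp (Λ * s * η 0 ω)) P)
    (hd : FreeEnergyEq P η lam h s h) :
    ∃ lam', lam < lam' ∧ FreeEnergyEq P η lam' (h + Real.log 2) s (h + Real.log 2) := by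
  have hh' : 0 ≤ h + Real.log 2 := by
    have := Real.log_nonneg (by norm_num : (1 : ℝ) ≤ 2)
    linarith
  set K : ℝ := ∫ ω, Real.exp (Λ * s * η 0 ω) ∂P with hK
  have hKpos : 0 < K := integral_exp_pos hint
  set m : ℝ := Λ + Real.log K with hm'
  have e3 : ∀ x : ℝ, Real.exp (Λ * (1 + s * x) - m) = Real.exp (Λ * s * x) / K := by
    intro x
    rw [← Real.exp_log hKpos, ← Real.exp_sub]
    congr 1
    rw [hm']; ring
  have h3 := annealed_iid η hm hind hid (fun x => Λ * (1 + s * x) - m) (by fun_prop) 0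
    (by simp only [e3]; exact hint.div_const K)
    (by simp only [e3]; rw [integral_div, ← hK, div_self hKpos.ne']) _ hh'
  set ρ : ℝ := (Λ - lam) / (lam + 1) with hρ
  have hρpos : 0 < ρ := div_pos (by linarith) (by linarith)
  have hρe : ρ * (lam + 1) = Λ - lam := by rw [hρ]; field_simp
  let β : ℝ → ℝ := fun x => Real.log (1 + bonus h (lam * (1 + s * x)))
  have hβm : Measurable β := by
    apply Real.measurable_log.comp
    exact measurable_const.add ((measurable_bonus h).comp (by fun_prop))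
  have hβpos : ∀ x, 0 < β x := fun x => Real.log_pos (by linarith [bonus_pos h (lam * (1 + s * x))])
  have hmeas : ∀ D : ℕ, Measurable fun ω => Real.exp (-(D * β (η 0 ω))) := by
    intro D
    exact Real.measurable_exp.comp ((measurable_const.mul (hβm.comp (hm 0))).neg)
  have hbd : ∀ (D : ℕ) (ω : Ω), ‖Real.exp (-(D * β (η 0 ω)))‖ ≤ 1 := by
    intro D ω
    rw [Real.norm_eq_abs, abs_of_pos (Real.exp_pos _), Real.exp_le_one_iff]
    have := mul_nonneg (Nat.cast_nonneg (α := ℝ) D) (hβpos (η 0 ω)).le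
    linarith
  have hlim : Tendsto (fun D : ℕ => ∫ ω, Real.exp (-(D * β (η 0 ω))) ∂P) atTop
      (𝓝 (∫ _ω, (0 : ℝ) ∂P)) := by
    apply tendsto_integral_of_dominated_convergence (fun _ => (1 : ℝ))
      (fun D => (hmeas D).aestronglyMeasurable) (integrable_const _)
      (fun D => Eventually.of_forall (hbd D))
    refine Eventually.of_forall fun ω => ?_
    apply Real.tendsto_exp_neg_atTop_nhds_zero.comp
    exact tendsto_natCast_atTop_atTop.atTop_mul_const (hβpos _)
  rw [integral_zero] at hlim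
  obtain ⟨D, hD⟩ := ((tendsto_order.1 hlim).2 (Real.exp (-(m / ρ))) (Real.exp_pos _)).exists
  have hintD : Integrable (fun ω => Real.exp (-(D * β (η 0 ω)))) P :=
    Integrable.of_bound (hmeas D).aestronglyMeasurable 1 (Eventually.of_forall (hbd D))
  have e4 : ∀ x : ℝ, Real.exp (m / ρ - D * β x) = Real.exp (m / ρ) * Real.exp (-(D * β x)) := by
    intro x
    rw [← Real.exp_add]; rfl
  have h4 := annealed_iid η hm hind hid (fun x => m / ρ - D * β x)
    (measurable_const.sub (measurable_const.mul hβm)) 2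
    (by simp only [e4]; exact hintD.const_mul _)
    (by
      simp only [e4]
      rw [integral_const_mul]
      have := mul_le_mul_of_nonneg_left hD.le (Real.exp_pos (m / ρ)).le
      rw [← Real.exp_add, add_neg_cancel, Real.exp_zero] at this
      exact this) _ hh'
  have hDn : (0 : ℝ) ≤ D := Nat.cast_nonneg D
  have hden : 0 < 1 + ρ + ρ * D := by positivity
  refine ⟨lam + ρ / (1 + ρ + ρ * D), by linarith [div_pos hρpos hden], ?_⟩
  rw [freeEnergyEq_iff] at hd ⊢
  filter_upwards [hd, h3, h4] with ω k0 k3 k4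
  have k1 := k0.two_mul (compare_zero _ h hh)
  have k5 := k3.convex k4 (1 / (1 + ρ)) (ρ / (1 + ρ)) (by positivity) (by positivity)
    (by field_simp)
  have k6 := k1.convex k5 (ρ * D / (1 + ρ + ρ * D)) ((1 + ρ) / (1 + ρ + ρ * D)) (by positivity)
    (by positivity) (by field_simp; ring)
  have e : (fun i => (lam + ρ / (1 + ρ + ρ * D)) * (1 + s * η i ω)) =
      fun i => ρ * D / (1 + ρ + ρ * D) * enh (fun i => lam * (1 + s * η i ω)) h i +
        (1 + ρ) / (1 + ρ + ρ * D) * (1 / (1 + ρ) * (Λ * (1 + s * η (i + 0) ω) - m) +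
          ρ / (1 + ρ) * (m / ρ - D * β (η (i + 2) ω))) := by
    funext i
    have hΛ' : Λ = ρ * (lam + 1) + lam := by linarith
    simp only [enh, β, add_zero]
    generalize Real.log (1 + bonus h (lam * (1 + s * η (i + 2) ω))) = b
    generalize 1 + s * η i ω = y
    rw [hΛ']
    field_simp
    ring
  rw [e]
  exact k6

theorem subExp_zero (h : ℝ) (hh : 0 ≤ h) : SubExp fun n => G (fun _ => 0) h n 0 0 := by
  intro ε hε
  refine Eventually.of_forall fun n => (G_le_prod _ h hh n).trans ?_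
  simp only [Real.exp_zero, ite_self, Finset.prod_const_one, Finset.sum_const, Finset.card_univ,
    Fintype.card_fun, Fintype.card_bool, Fintype.card_fin, nsmul_eq_mul, mul_one, Nat.cast_pow,
    Nat.cast_ofNat]
  rw [div_self (by positivity)]
  exact Real.one_le_exp (by positivity)

omit [IsProbabilityMeasure P] in
theorem deloc_mono (η : ℕ → Ω → ℝ) (s lam lam' h : ℝ) (h0 : 0 ≤ lam') (hl : lam' ≤ lam)
    (hh : 0 ≤ h) (hd : FreeEnergyEq P η lam h s h) : FreeEnergyEq P η lam' h s h := by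
  unfold FreeEnergyEq at hd ⊢
  simp only [tendsto_iff_subExp] at hd ⊢
  filter_upwards [hd] with ω k0
  rcases eq_or_lt_of_le (h0.trans hl) with h1 | h1
  · have : lam' = lam := by linarith
    rw [this]; exact k0
  · have k1 := k0.convex (subExp_zero h hh) (lam' / lam) (1 - lam' / lam) (by positivity)
      (by rw [sub_nonneg, div_le_one h1]; exact hl) (by ring)
    have e : (fun i => lam' * (1 + s * η i ω)) =
        fun i => lam' / lam * (lam * (1 + s * η i ω)) + (1 - lam' / lam) * 0 := by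
      funext i
      field_simp
      ring
    rw [e]
    exact k1

omit [IsProbabilityMeasure P] in
theorem deloc_zero (η : ℕ → Ω → ℝ) (s : ℝ) : FreeEnergyEq P η 0 0 s 0 := by
  unfold FreeEnergyEq
  simp only [tendsto_iff_subExp]
  refine Eventually.of_forall fun ω => ?_
  simp only [zero_mul]
  exact subExp_zero 0 le_rfl

theorem deloc_le (η : ℕ → Ω → ℝ) (hind : iIndepFun η P)
    (hid : ∀ i, IdentDistrib (η i) (η 0) P P) (hi : Integrable (η 0) P)
    (hc : ∫ ω, η 0 ω ∂P = 0) (s lam h : ℝ) (hd : FreeEnergyEq P η lam h s h) :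
    lam ≤ Real.log 4 := by
  by_contra hlt
  push Not at hlt
  have hsl := strong_law_ae_real (μ := P) (fun j => η (2 * j + 2)) ((hid _).integrable_iff.mpr hi)
    (fun i j hij => hind.indepFun (by omega)) (fun i => (hid _).trans (hid _).symm)
  rw [freeEnergyEq_iff] at hd
  obtain ⟨ω, k0, k1⟩ := (hd.and hsl).exists
  have e0 : ∫ ω, η (2 * 0 + 2) ω ∂P = 0 := by rw [(hid _).integral_eq, hc]
  rw [e0] at k1
  set δ : ℝ := lam - Real.log 4 with hδ
  have hδpos : 0 < δ := by linarith
  have k2 : Tendsto (fun m : ℕ => lam * s * ((∑ j ∈ Finset.range m, η (2 * j + 2) ω) / m))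
      atTop (𝓝 (lam * s * 0)) := k1.const_mul _
  rw [mul_zero] at k2
  have k3 := (tendsto_order.1 k2).1 (-(δ / 2)) (by linarith)
  have k4 : ∀ᶠ m : ℕ in atTop, G (fun i => lam * (1 + s * η i ω)) h (2 * m) 0 0 ≤
      Real.exp (δ / 8 * ((2 * m : ℕ) : ℝ)) :=
    (tendsto_id.const_mul_atTop' (by norm_num : 0 < 2)).eventually (k0 (δ / 8) (by linarith))
  obtain ⟨m, ⟨a1, a2⟩, a3⟩ := ((k3.and k4).and (eventually_ge_atTop 1)).exists
  have a4 := (G_zigzag (fun i => lam * (1 + s * η i ω)) h m 0).trans a2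
  rw [Real.exp_le_exp] at a4
  have hm : (0 : ℝ) < m := by exact_mod_cast a3
  have e1 : ∑ j ∈ Finset.range m, (lam * (1 + s * η (0 + 2 * j + 2) ω) - Real.log 4) =
      δ * m + lam * s * ∑ j ∈ Finset.range m, η (2 * j + 2) ω := by
    have : δ * m = ∑ _j ∈ Finset.range m, δ := by simp [mul_comm]
    rw [this, Finset.mul_sum, ← Finset.sum_add_distrib]
    apply Finset.sum_congr rfl
    intro j _
    rw [zero_add, hδ]
    ring
  rw [e1] at a4
  rw [← mul_div_assoc, lt_div_iff₀ hm] at a1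
  push_cast at a4
  nlinarith

omit [IsProbabilityMeasure P] in
theorem critCurve_lt_top (η : ℕ → Ω → ℝ) (lam s : ℝ) :
    critCurve P η lam s < ⊤ ↔ ∃ h : ℝ, 0 ≤ h ∧ FreeEnergyEq P η lam h s h := by
  unfold critCurve
  rw [iInf_lt_iff]
  constructor
  · rintro ⟨h, hh⟩
    rw [iInf_lt_iff] at hh
    obtain ⟨hh, _⟩ := hh
    exact ⟨h, h.2, hh⟩
  · rintro ⟨h, h0, hh⟩
    refine ⟨⟨h, h0⟩, ?_⟩
    rw [iInf_lt_iff]
    exact ⟨hh, ENNReal.coe_lt_top⟩

end Pool.Agent.Lib.MP_11b949_pr
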