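import Mathlib
import Pool.Agent.Lib.MP_11b949_pr.Green
import Pool.Agent.Lib.MP_11b949_pr.Prob

set_option autoImplicit false

open Finset MeasureTheory ProbabilityTheory Filter
open scoped ENNReal NNReal

namespace Pool.Agent.Lib.MP_11b949_pr

theorem gr_measurable {Ω : Type} (m : MeasurableSpace Ω) (k : ℕ → ℝ≥0∞) (ξ : ℕ → Ω → ℝ≥0∞)
    (b a : ℕ) : (∀ i, a < i → i < b → Measurable (ξ i)) →
      Measurable fun ω => gr k (fun i => ξ i ω) a b := by
  induction a using down_ind b with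
  | _ a ih =>
    intro h
    simp only [gr_eq k _ a b]
    refine measurable_const.add (Finset.measurable_sum _ fun u hu => ?_)
    have hu' := mem_Ioo.1 hu
    exact measurable_const.mul ((h u hu'.1 hu'.2).mul
      (ih u hu'.1 hu'.2.le fun i h1 h2 => h i (by omega) h2))

theorem rpow_sum_le {γ : ℝ} (h0 : 0 < γ) (h1 : γ ≤ 1) (s : Finset ℕ) (f : ℕ → ℝ≥0∞) :
    (∑ i ∈ s, f i) ^ γ ≤ ∑ i ∈ s, f i ^ γ := by
  induction s using Finset.induction_on with
  | empty => simp [h0]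
  | insert a s ha ih =>
    rw [sum_insert ha, sum_insert ha]
    exact (ENNReal.rpow_add_le_add_rpow _ _ h0.le h1).trans (by gcongr)

variable {Ω X : Type} [mΩ : MeasurableSpace Ω] [mX : MeasurableSpace X] {P : Measure Ω}
  [IsProbabilityMeasure P] {J : ℕ → Ω → X}

/-- The sigma-algebra generated by the variables with index in `S`. -/
@[reducible] def sig (J : ℕ → Ω → X) (S : Set ℕ) : MeasurableSpace Ω :=
  ⨆ i ∈ S, MeasurableSpace.comap (J i) mX

omit mΩ in
theorem sig_meas {S : Set ℕ} {i : ℕ} (hi : i ∈ S) {f : X → ℝ≥0∞} (hf : Measurable f) :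
    Measurable[sig J S] fun ω => f (J i ω) :=
  hf.comp (Measurable.of_comap_le
    (le_iSup₂ (f := fun i (_ : i ∈ S) => MeasurableSpace.comap (J i) mX) i hi))

omit [IsProbabilityMeasure P] in
theorem lint_mul (hm : ∀ i, Measurable (J i)) (hind : iIndepFun J P) {S T : Set ℕ}
    (hST : Disjoint S T) {F H : Ω → ℝ≥0∞} (hF : Measurable[sig J S] F)
    (hH : Measurable[sig J T] H) :
    ∫⁻ ω, F ω * H ω ∂P = (∫⁻ ω, F ω ∂P) * ∫⁻ ω, H ω ∂P :=
  lintegral_mul_eq_lintegral_mul_lintegral_of_independent_measurableSpace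
    (iSup₂_le fun i _ => (hm i).comap_le) (iSup₂_le fun i _ => (hm i).comap_le)
    (indep_iSup_of_disjoint (fun i => (hm i).comap_le) hind.iIndep hST) hF hH

/-- Fractional moment of the pinned partition function. -/
noncomputable def mom (P : Measure Ω) (J : ℕ → Ω → X) (k : ℕ → ℝ≥0∞) (f : X → ℝ≥0∞) (γ : ℝ)
    (a b : ℕ) : ℝ≥0∞ := ∫⁻ ω, gr k (fun i => f (J i ω)) a b ^ γ ∂P

omit [IsProbabilityMeasure P] in
theorem mom_subSol (hm : ∀ i, Measurable (J i)) (hind : iIndepFun J P) (k : ℕ → ℝ≥0∞)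
    {f y : X → ℝ≥0∞} (hf : Measurable f) (hy : Measurable y) {γ : ℝ} (h0 : 0 < γ) (h1 : γ ≤ 1)
    {u : ℕ → ℝ≥0∞} {ρ : ℝ≥0∞} (hu : ∀ a b, a < b → mom P J k f γ a b ≤ u (b - a))
    (hρ : ∀ i, ∫⁻ ω, y (J i ω) ^ γ ∂P ≤ ρ) :
    SubSol u ρ (mom P J k (fun x => f x + y x) γ) := by
  intro a b hab
  have hfy : Measurable fun x => f x + y x := hf.add hy
  have m1 : ∀ {g : X → ℝ≥0∞} (_ : Measurable g) (c d : ℕ),
      Measurable fun ω => gr k (fun i => g (J i ω)) c d ^ γ := fun hg c d =>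
    (gr_measurable _ k _ d c fun i _ _ => hg.comp (hm i)).pow_const γ
  have m2 : ∀ {g : X → ℝ≥0∞} (_ : Measurable g) (c d : ℕ) (S : Set ℕ), Set.Ioo c d ⊆ S →
      Measurable[sig J S] fun ω => gr k (fun i => g (J i ω)) c d ^ γ := fun hg c d S hS =>
    (ENNReal.continuous_rpow_const.measurable).comp
      (gr_measurable (sig J S) k _ d c fun i h2 h3 => sig_meas (hS ⟨h2, h3⟩) hg)
  calc mom P J k (fun x => f x + y x) γ a b
      ≤ ∫⁻ ω, (gr k (fun i => f (J i ω)) a b ^ γ + ∑ v ∈ Ioo a b, gr k (fun i => f (J i ω)) a v ^ γ *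
          (y (J v ω) ^ γ * gr k (fun i => f (J i ω) + y (J i ω)) v b ^ γ)) ∂P := by
        apply lintegral_mono
        intro ω
        dsimp only
        rw [gr_add k (fun i => f (J i ω)) (fun i => y (J i ω)) b a]
        refine (ENNReal.rpow_add_le_add_rpow _ _ h0.le h1).trans ?_
        gcongr
        refine (rpow_sum_le h0 h1 _ _).trans (le_of_eq ?_)
        simp only [ENNReal.mul_rpow_of_nonneg _ _ h0.le]
    _ ≤ _ := by
        have m3 : ∀ v, Measurable fun ω => gr k (fun i => f (J i ω)) a v ^ γ *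
            (y (J v ω) ^ γ * gr k (fun i => f (J i ω) + y (J i ω)) v b ^ γ) := fun v =>
          (m1 hf a v).mul (((hy.comp (hm v)).pow_const γ).mul (m1 hfy v b))
        rw [lintegral_add_left (m1 hf a b), lintegral_finsetSum _ fun v _ => m3 v]
        gcongr with v hv
        · exact hu a b hab
        · have hv' := mem_Ioo.1 hv
          have hyγ : Measurable fun x => y x ^ γ := hy.pow_const γ
          have m4 : Measurable[sig J (Set.Ici v)] fun ω =>
              y (J v ω) ^ γ * gr k (fun i => f (J i ω) + y (J i ω)) v b ^ γ :=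
            (sig_meas (by simp) hyγ).mul (m2 hfy v b _ fun i hi => hi.1.le)
          rw [lint_mul hm hind (S := Set.Iio v) (T := Set.Ici v) (by simp)
            (m2 hf a v _ fun i hi => hi.2) m4,
            lint_mul hm hind (S := Set.Iic v) (T := Set.Ioi v) (by simp) (sig_meas (by simp) hyγ)
            (m2 hfy v b _ fun i hi => hi.1)]
          gcongr
          · exact hu a v hv'.1
          · exact hρ v
          · exact le_rfl

theorem wt_ne_zero (β : ℝ) (g : ℕ) (hg : 0 < g) : wt β g ≠ 0 := by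
  have : (0 : ℝ) < g := by exact_mod_cast hg
  simpa [wt] using Real.rpow_pos_of_pos this _

theorem mom_lower (hm : ∀ i, Measurable (J i)) (k : ℕ → ℝ≥0∞) {f : X → ℝ≥0∞} (hf : Measurable f)
    {γ γ' : ℝ} (h0 : 0 ≤ γ') (h1 : γ' ≤ γ) {C : ℝ≥0∞} {a b : ℕ} (hab : a < b)
    (h : mom P J k f γ a b ≤ C * wt (3 / 2 * γ) (b - a)) :
    mom P J k f γ' a b ≤ (1 + C) * wt (3 / 2 * γ') (b - a) := by
  rw [← wt_rpow _ _ (h0.trans h1)] at h
  rw [← wt_rpow _ _ h0]
  have w0 : wt (3 / 2) (b - a) ≠ 0 := wt_ne_zero _ _ (by omega)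
  have w1 : wt (3 / 2) (b - a) ≠ ⊤ := ENNReal.ofReal_ne_top
  set w := wt (3 / 2) (b - a)
  have m1 : Measurable fun ω => gr k (fun i => f (J i ω)) a b ^ γ :=
    (gr_measurable _ k _ b a fun i _ _ => hf.comp (hm i)).pow_const γ
  have key : ∀ z : ℝ≥0∞, z ^ γ' ≤ (1 + z ^ γ * w⁻¹ ^ γ) * w ^ γ' := by
    intro z
    have e : z = z * w⁻¹ * w := by rw [mul_assoc, ENNReal.inv_mul_cancel w0 w1, mul_one]
    rw [← ENNReal.mul_rpow_of_nonneg _ _ (h0.trans h1)]
    nth_rewrite 1 [e]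
    rw [ENNReal.mul_rpow_of_nonneg _ _ h0]
    gcongr
    rcases le_total (z * w⁻¹) 1 with hz | hz
    · exact (ENNReal.rpow_le_one hz h0).trans le_self_add
    · exact (ENNReal.rpow_le_rpow_of_exponent_le hz h1).trans le_add_self
  calc mom P J k f γ' a b
      ≤ ∫⁻ ω, (1 + gr k (fun i => f (J i ω)) a b ^ γ * w⁻¹ ^ γ) * w ^ γ' ∂P :=
        lintegral_mono fun ω => key _
    _ = (1 + mom P J k f γ a b * w⁻¹ ^ γ) * w ^ γ' := by
        have m2 : Measurable fun ω => 1 + gr k (fun i => f (J i ω)) a b ^ γ * w⁻¹ ^ γ :=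
          measurable_const.add (m1.mul_const _)
        rw [lintegral_mul_const _ m2,
          lintegral_add_left measurable_const, lintegral_mul_const _ m1]
        simp [mom]
    _ ≤ (1 + C * w ^ γ * w⁻¹ ^ γ) * w ^ γ' := by gcongr
    _ = _ := by
        rw [mul_assoc C, ← ENNReal.mul_rpow_of_nonneg _ _ (h0.trans h1),
          ENNReal.mul_inv_cancel w0 w1, ENNReal.one_rpow, mul_one]

omit [IsProbabilityMeasure P] in
theorem subExp_of_moment (B : ℕ → Ω → ℝ≥0∞) (hB : ∀ n, Measurable (B n)) (M : ℝ≥0∞) (hM : M ≠ ⊤)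
    (hBM : ∀ n, ∫⁻ ω, B n ω ∂P ≤ M) {γ : ℝ} (h0 : 0 < γ) (u : ℕ → Ω → ℝ)
    (hu : ∀ n ω, ENNReal.ofReal (u n ω) ^ γ ≤ B n ω) : ∀ᵐ ω ∂P, SubExp fun n => u n ω := by
  have key : ∀ ε : ℝ, 0 < ε → ∀ᵐ ω ∂P, ∀ᶠ n : ℕ in atTop, u n ω ≤ Real.exp (ε * n) := by
    intro ε hε
    let s : ℕ → Set Ω := fun n => {ω | ENNReal.ofReal (Real.exp (ε * γ * n)) ≤ B n ω}
    have hs : ∀ n, P (s n) ≤ M * ENNReal.ofReal (Real.exp (-(ε * γ))) ^ n := by
      intro n
      have h1 := meas_ge_le_lintegral_div (μ := P) (hB n).aemeasurable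
        (ε := ENNReal.ofReal (Real.exp (ε * γ * n))) (by simpa using Real.exp_pos _) (by simp)
      refine h1.trans ((ENNReal.div_le_div_right (hBM n) _).trans (le_of_eq ?_))
      rw [div_eq_mul_inv, ← ENNReal.ofReal_inv_of_pos (Real.exp_pos _), ← Real.exp_neg,
        ← ENNReal.ofReal_pow (Real.exp_pos _).le, ← Real.exp_nat_mul]
      congr 3
      ring
    have hsum : ∑' n, P (s n) ≠ ∞ := by
      refine ne_top_of_le_ne_top ?_ (ENNReal.tsum_le_tsum hs)
      rw [ENNReal.tsum_mul_left, ENNReal.tsum_geometric]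
      refine ENNReal.mul_ne_top hM (ENNReal.inv_ne_top.mpr ?_)
      have : ENNReal.ofReal (Real.exp (-(ε * γ))) < 1 := by
        rw [ENNReal.ofReal_lt_one]
        exact Real.exp_lt_one_iff.mpr (by nlinarith)
      exact (tsub_pos_of_lt this).ne'
    filter_upwards [ae_eventually_notMem hsum] with ω hω
    filter_upwards [hω] with n hn
    have h1 : B n ω < ENNReal.ofReal (Real.exp (ε * γ * n)) := not_le.mp hn
    have h2 := (hu n ω).trans_lt h1
    rw [show ε * γ * n = ε * n * γ by ring, Real.exp_mul,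
      ← ENNReal.ofReal_rpow_of_pos (Real.exp_pos _), ENNReal.rpow_lt_rpow_iff h0] at h2
    exact ((ENNReal.ofReal_lt_ofReal_iff (Real.exp_pos _)).mp h2).le
  have key' : ∀ᵐ ω ∂P, ∀ k : ℕ, ∀ᶠ n : ℕ in atTop, u n ω ≤ Real.exp (1 / ((k : ℝ) + 1) * n) :=
    ae_all_iff.mpr fun k => key _ (by positivity)
  filter_upwards [key'] with ω hω
  intro ε hε
  obtain ⟨k, hk⟩ := exists_nat_one_div_lt hε
  filter_upwards [hω k] with n hn
  refine hn.trans (Real.exp_le_exp.mpr ?_)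
  exact mul_le_mul_of_nonneg_right hk.le (Nat.cast_nonneg n)

/-- The excursion weights in `[0, ∞]`. -/
noncomputable def kk (h : ℝ) (g : ℕ) : ℝ≥0∞ := ENNReal.ofReal (exc h g)

theorem deloc_of_mom (hm : ∀ i, Measurable (J i)) (hind : iIndepFun J P) (h : ℝ) (hh : 0 ≤ h)
    {f : X → ℝ≥0∞} (hf : Measurable f) (φ : X → ℝ)
    (hφ : ∀ x, ENNReal.ofReal (Real.exp (φ x)) ≤ f x) {γ : ℝ} (h0 : 2 / 3 < γ) (h1 : γ ≤ 1)
    {C ρ : ℝ≥0∞} (hC : C ≠ ⊤) (hρ : ρ ≠ ⊤)
    (hmom : ∀ a b, a < b → mom P J (kk h) f γ a b ≤ C * wt (3 / 2 * γ) (b - a))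
    (hρ' : ∀ i, ∫⁻ ω, f (J i ω) ^ γ ∂P ≤ ρ) :
    ∀ᵐ ω ∂P, SubExp fun n => G (fun i => φ (J i ω)) h n 0 0 := by
  obtain ⟨U, hU, hU'⟩ := wt_sum (3 / 2 * γ) (by linarith)
  have h0' : 0 < γ := by linarith
  have hfγ : Measurable fun x => f x ^ γ := hf.pow_const γ
  have m1 : ∀ u, Measurable fun ω => gr (kk h) (fun i => f (J i ω)) 0 u ^ γ * f (J u ω) ^ γ :=
    fun u => ((gr_measurable _ _ _ u 0 fun i _ _ => hf.comp (hm i)).pow_const γ).mul
      (hfγ.comp (hm u))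
  refine subExp_of_moment
    (fun n ω => 1 + ∑ u ∈ Ioc 0 n, gr (kk h) (fun i => f (J i ω)) 0 u ^ γ * f (J u ω) ^ γ)
    (fun n => measurable_const.add (Finset.measurable_sum _ fun u _ => m1 u)) (1 + C * ρ * U)
    (by finiteness) (fun n => ?_) h0' _ (fun n ω => ?_)
  · rw [lintegral_add_left measurable_const, lintegral_finsetSum _ fun u _ => m1 u]
    simp only [lintegral_const, measure_univ, mul_one]
    gcongr 1 + ?_
    refine le_trans (sum_le_sum (g := fun u => C * ρ * wt (3 / 2 * γ) u) fun u hu => ?_) ?_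
    · have m2 : Measurable[sig J (Set.Iio u)] fun ω =>
          gr (kk h) (fun i => f (J i ω)) 0 u ^ γ :=
        (ENNReal.continuous_rpow_const.measurable).comp
          (gr_measurable (sig J (Set.Iio u)) (kk h) (fun i ω => f (J i ω)) u 0
            fun i _ h3 => sig_meas (S := Set.Iio u) h3 hf)
      rw [lint_mul hm hind (S := Set.Iio u) (T := Set.Ici u) (by simp) m2
        (sig_meas (by simp) hfγ), mul_right_comm]
      gcongr
      · exact hmom 0 u (mem_Ioc.1 hu).1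
      · exact hρ' u
    · rw [← mul_sum]
      gcongr
      exact hU' n
  · have h2 := G_le_gr (fun i => φ (J i ω)) h hh (fun i => f (J i ω)) (fun u => hφ _) n 0
    refine (ENNReal.rpow_le_rpow h2 h0'.le).trans
      ((ENNReal.rpow_add_le_add_rpow _ _ h0'.le h1).trans ?_)
    rw [ENNReal.one_rpow]
    gcongr
    refine (rpow_sum_le h0' h1 _ _).trans (le_of_eq ?_)
    simp only [ENNReal.mul_rpow_of_nonneg _ _ h0'.le]
    rfl

theorem level_step {γ : ℝ} (h0 : 2 / 3 < γ) (h1 : γ ≤ 1) (C : ℝ≥0∞) (hC : C ≠ ⊤) :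
    ∃ δ : ℝ, 0 < δ ∧ ∃ C' : ℝ≥0∞, C' ≠ ⊤ ∧ ∀ V : ℕ → ℕ → ℝ≥0∞,
      SubSol (fun g => C * wt (3 / 2 * γ) g) (ENNReal.ofReal δ) V →
        ∀ a b, a < b → V a b ≤ C' * wt (3 / 2 * γ) (b - a) := by
  obtain ⟨U, hU, hU'⟩ := wt_sum (3 / 2 * γ) (by linarith)
  have hCU : C * U ≠ ⊤ := by finiteness
  have h2 : (0 : ℝ) ≤ (C * U).toReal := ENNReal.toReal_nonneg
  have h3 : ENNReal.ofReal (1 / ((C * U).toReal + 1)) * (C * U) < 1 := by
    nth_rewrite 2 [← ENNReal.ofReal_toReal hCU]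
    rw [← ENNReal.ofReal_mul (by positivity), ENNReal.ofReal_lt_one, div_mul_eq_mul_div,
      div_lt_one (by positivity)]
    linarith
  obtain ⟨C', hC', H⟩ := sub_bound (3 / 2 * γ) (by linarith) (by linarith) C (C * U) _ hC hCU
    ENNReal.ofReal_ne_top h3
  refine ⟨_, by positivity, C', hC', fun V hV => H _ V hV (fun n => ?_) fun g _ => le_rfl⟩
  rw [← mul_sum]
  gcongr
  exact hU' n

theorem kk_le (h : ℝ) (hh : 0 ≤ h) (g : ℕ) (hg : 0 < g) : kk h g ≤ 2 * wt (3 / 2) g := by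
  refine (ENNReal.ofReal_le_ofReal (exc_le h hh g hg)).trans (le_of_eq ?_)
  rw [ENNReal.ofReal_mul (by norm_num), wt]
  simp

omit mX in
theorem mom_zero (h : ℝ) (hh : 0 ≤ h) {γ : ℝ} (h0 : 0 ≤ γ) (h1 : γ ≤ 1) (a b : ℕ) (hab : a < b) :
    mom P J (kk h) (fun _ => 0) γ a b ≤ 2 * wt (3 / 2 * γ) (b - a) := by
  simp only [mom, gr_zero, lintegral_const, measure_univ, mul_one]
  refine (ENNReal.rpow_le_rpow (kk_le h hh _ (by omega)) h0).trans ?_
  rw [ENNReal.mul_rpow_of_nonneg _ _ h0, wt_rpow _ _ h0]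
  gcongr
  exact (ENNReal.rpow_le_rpow_of_exponent_le one_le_two h1).trans (by simp)

/-- Fractional moment bound: a sufficiently negative shift delocalises. -/
theorem deloc_shift (η : ℕ → Ω → ℝ) (hm : ∀ i, Measurable (η i)) (hind : iIndepFun η P)
    (hid : ∀ i, IdentDistrib (η i) (η 0) P P) (φ : ℝ → ℝ) (hφ : Measurable φ) {γ : ℝ}
    (h0 : 2 / 3 < γ) (h1 : γ ≤ 1) (hint : Integrable (fun ω => Real.exp (γ * φ (η 0 ω))) P)
    (h : ℝ) (hh : 0 ≤ h) :
    ∃ m : ℝ, ∀ᵐ ω ∂P, SubExp fun n => G (fun i => φ (η i ω) - m) h n 0 0 := by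
  obtain ⟨δ, hδ, C', hC', H⟩ := level_step h0 h1 2 (by simp)
  have h0' : 0 < γ := by linarith
  set K : ℝ := ∫ ω, Real.exp (γ * φ (η 0 ω)) ∂P with hK
  have hKpos : 0 < K := integral_exp_pos hint
  set m : ℝ := Real.log (K / δ) / γ with hm'
  let y : ℝ → ℝ≥0∞ := fun x => ENNReal.ofReal (Real.exp (φ x - m))
  have hy : Measurable y := by fun_prop
  have e : ∀ x, y x ^ γ = ENNReal.ofReal (Real.exp (γ * φ x) * (δ / K)) := by
    intro x
    rw [ENNReal.ofReal_rpow_of_pos (Real.exp_pos _), ← Real.exp_mul,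
      show (φ x - m) * γ = γ * φ x - Real.log (K / δ) by rw [hm']; field_simp, Real.exp_sub,
      Real.exp_log (by positivity)]
    congr 1
    field_simp
  have hρ : ∀ i, ∫⁻ ω, y (η i ω) ^ γ ∂P ≤ ENNReal.ofReal δ := by
    intro i
    have h2 := ((hid i).comp (hy.pow_const γ)).lintegral_eq
    simp only [Function.comp] at h2
    rw [h2]
    simp only [e]
    rw [← ofReal_integral_eq_lintegral_ofReal (hint.mul_const _)
      (Eventually.of_forall fun ω => by positivity), integral_mul_const, ← hK]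
    apply le_of_eq
    congr 1
    field_simp
  have h2 := mom_subSol hm hind (kk h) (f := fun _ => 0) measurable_const hy h0' h1
    (u := fun g => 2 * wt (3 / 2 * γ) g) (mom_zero h hh h0'.le h1) hρ
  simp only [zero_add] at h2
  exact ⟨m, deloc_of_mom hm hind h hh hy (fun x => φ x - m) (fun x => le_rfl) h0 h1 hC'
    ENNReal.ofReal_ne_top (H _ h2) hρ⟩

end Pool.Agent.Lib.MP_11b949_pr
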