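import Mathlib
import Pool.Agent.Lib.MP_11b949_pr.Frac

set_option autoImplicit false

open Finset MeasureTheory ProbabilityTheory Filter Topology
open scoped ENNReal NNReal

namespace Pool.Agent.Lib.MP_11b949_pr

/-- The strategy that visits exactly the good even sites. -/
theorem G_rare (ω : ℕ → ℝ) (h c L : ℝ) (hL : 0 < L) (good : ℕ → Prop) [DecidablePred good]
    (hg : ∀ i, good i → c ≤ ω (2 * i + 2)) (M j : ℕ) :
    j ≤ M → Real.exp ((c - Real.log 12 - 3 / 2 * Real.log L) * ((Ico j M).filter good).card -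
      3 / 2 * ((M : ℝ) - j) / L) / (2 * (((2 * M : ℕ) : ℝ) + 1)) ≤ G ω h (2 * (M - j)) (2 * j) 0 := by
  induction j using down_ind M with
  | _ j ih =>
    intro hj
    have hj' : (j : ℝ) ≤ M := by exact_mod_cast hj
    by_cases he : ∃ i, j ≤ i ∧ i < M ∧ good i
    · classical
      obtain ⟨h1, h2, h3⟩ := Nat.find_spec he
      have h4 : ∀ i, i < Nat.find he → ¬ (j ≤ i ∧ i < M ∧ good i) := fun i hi => Nat.find_min he hi
      obtain ⟨m, hm⟩ : ∃ m, Nat.find he = j + m := ⟨Nat.find he - j, by omega⟩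
      rw [hm] at h1 h2 h3 h4
      have e : (Ico j M).filter good = insert (j + m) ((Ico (j + m + 1) M).filter good) := by
        ext i
        simp only [mem_filter, mem_Ico, mem_insert]
        constructor
        · rintro ⟨⟨a, b⟩, d⟩
          rcases lt_trichotomy i (j + m) with k | k | k
          · exact absurd ⟨a, b, d⟩ (h4 i k)
          · exact Or.inl k
          · exact Or.inr ⟨⟨k, b⟩, d⟩
        · rintro (rfl | ⟨⟨a, b⟩, d⟩)
          · exact ⟨⟨h1, h2⟩, h3⟩
          · exact ⟨⟨by omega, b⟩, d⟩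
      have k1 := ih (j + m + 1) (by omega) (by omega) (by omega)
      have k2 := G_ge_excursion ω h (2 * (M - (j + m + 1))) m (2 * j)
      rw [show 2 * (m + 1) + 2 * (M - (j + m + 1)) = 2 * (M - j) by omega,
        show 2 * j + 2 * (m + 1) = 2 * (j + m + 1) by ring] at k2
      refine le_trans ?_ k2
      have k3 : Real.exp c ≤ Real.exp (ω (2 * (j + m + 1))) :=
        Real.exp_le_exp.2 (hg _ h3)
      have hm1 : (0 : ℝ) < (m : ℝ) + 1 := by positivity
      have k4 : Real.exp (-(3 / 2 * Real.log L) - 3 / 2 * ((m : ℝ) + 1) / L) ≤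
          ((m : ℝ) + 1) ^ (-(3 / 2) : ℝ) := by
        rw [Real.rpow_def_of_pos hm1, Real.exp_le_exp]
        have := Real.log_le_sub_one_of_pos (div_pos hm1 hL)
        rw [Real.log_div hm1.ne' hL.ne'] at this
        rw [mul_div_assoc]
        linarith
      refine le_trans (le_of_eq ?_) (mul_le_mul (div_le_div_of_nonneg_right k4 (by norm_num))
        (mul_le_mul k3 k1 (by positivity) (by positivity)) (by positivity) (by positivity))
      rw [e, card_insert_of_notMem (by simp), ← Real.exp_log (by norm_num : (0 : ℝ) < 12),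
        ← Real.exp_sub, ← mul_div_assoc, ← mul_div_assoc, ← Real.exp_add, ← Real.exp_add,
        Real.log_exp]
      congr 2
      push_cast
      ring
    · have e : (Ico j M).filter good = ∅ :=
        filter_eq_empty_iff.2 fun i hi hg => he ⟨i, (mem_Ico.1 hi).1, (mem_Ico.1 hi).2, hg⟩
      refine le_trans ?_ (G_lower_zero ω h _ _)
      rw [e, card_empty, Nat.cast_zero, mul_zero, zero_sub]
      have h1 : ((2 * (M - j) : ℕ) : ℝ) ≤ ((2 * M : ℕ) : ℝ) := by exact_mod_cast (by omega)
      have h2 : 0 ≤ 3 / 2 * ((M : ℝ) - j) / L := div_nonneg (by linarith) hL.le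
      gcongr
      exact Real.exp_le_one_iff.2 (by linarith)

variable {Ω : Type} [MeasurableSpace Ω] {P : Measure Ω} [IsProbabilityMeasure P]

theorem loc_of_tail (η : ℕ → Ω → ℝ) (hm : ∀ i, Measurable (η i)) (hind : iIndepFun η P)
    (hid : ∀ i, IdentDistrib (η i) (η 0) P P) (s lam h x : ℝ) (hs : 0 ≤ s) (hlam : 0 ≤ lam)
    (hp : 0 < P.real {ω | x ≤ η 0 ω})
    (hB : 8 ≤ lam * (1 + s * x) - Real.log 12 + 3 / 2 * Real.log (P.real {ω | x ≤ η 0 ω})) :
    ¬ FreeEnergyEq P η lam h s h := by
  intro hd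
  set p := P.real {ω | x ≤ η 0 ω} with hpd
  let I : ℝ → ℝ := (Set.Ici x).indicator 1
  have hI : Measurable I := measurable_const.indicator measurableSet_Ici
  have hint : Integrable (I ∘ η 0) P :=
    Integrable.of_bound (hI.comp (hm 0)).aestronglyMeasurable 1 (Eventually.of_forall fun ω => by
      simp only [I, Function.comp, Set.indicator]; split_ifs <;> simp)
  have hsl := strong_law_ae_real (μ := P) (fun j => I ∘ η (2 * j + 2))
    (((hid _).comp hI).integrable_iff.mpr hint)
    (fun i j hij => (hind.indepFun (by omega)).comp hI hI)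
    (fun i => ((hid _).trans (hid _).symm).comp hI)
  have e0 : ∫ ω, (I ∘ η (2 * 0 + 2)) ω ∂P = p := by
    rw [((hid _).comp hI).integral_eq, hpd,
      ← integral_indicator_one (measurableSet_le measurable_const (hm 0))]
    rfl
  rw [freeEnergyEq_iff] at hd
  obtain ⟨ω, k0, k1⟩ := (hd.and hsl).exists
  rw [e0] at k1
  have k3 := (tendsto_order.1 k1).1 (p / 2) (by linarith)
  have k4 := (tendsto_id.const_mul_atTop' (by norm_num : 0 < 2)).eventually
    ((k0 (p / 4) (by linarith)).and (eventually_lin (p / 4) (by linarith)))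
  obtain ⟨M, ⟨a1, a2, a5⟩, a3⟩ := ((k3.and k4).and (eventually_ge_atTop 1)).exists
  have hM : (0 : ℝ) < M := by exact_mod_cast a3
  have a4 := G_rare (fun i => lam * (1 + s * η i ω)) h (lam * (1 + s * x)) (1 / p) (by positivity)
    (fun i => x ≤ η (2 * i + 2) ω) (fun i hi => by gcongr) M 0 (Nat.zero_le _)
  simp only [id] at a2 a5
  have e1 : ∑ j ∈ range M, (I ∘ η (2 * j + 2)) ω =
      (((Ico 0 M).filter fun i => x ≤ η (2 * i + 2) ω).card : ℝ) := by
    rw [card_filter, ← range_eq_Ico]
    push_cast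
    apply sum_congr rfl
    intro j _
    simp [I, Set.indicator]
  rw [e1, lt_div_iff₀ hM] at a1
  rw [Nat.sub_zero, mul_zero, div_le_iff₀ (by positivity), one_div, Real.log_inv] at a4
  have a6 := a4.trans (mul_le_mul a2 a5 (by positivity) (by positivity))
  rw [← Real.exp_add, Real.exp_le_exp, div_inv_eq_mul] at a6
  push_cast at a6
  have a7 := mul_le_mul hB a1.le (by positivity) (by linarith)
  have a8 := mul_pos hp hM
  linarith

theorem integrable_of_tail (Y : Ω → ℝ) (hY : Measurable Y) (u u' x₀ : ℝ) (hu : 0 ≤ u)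
    (hu' : u < u') (h : ∀ x, x₀ ≤ x → P.real {ω | x ≤ Y ω} ≤ Real.exp (-(u' * x))) :
    Integrable (fun ω => Real.exp (u * Y ω)) P := by
  refine ⟨by fun_prop, ?_⟩
  rw [hasFiniteIntegral_iff_ofReal (Eventually.of_forall fun ω => (Real.exp_pos _).le)]
  let A : ℕ → Set Ω := fun n => {ω | x₀ + n ≤ Y ω}
  have hA : ∀ n, MeasurableSet (A n) := fun n => measurableSet_le measurable_const hY
  let c : ℕ → ℝ≥0∞ := fun n => ENNReal.ofReal (Real.exp (u * (x₀ + n + 1)))
  calc ∫⁻ ω, ENNReal.ofReal (Real.exp (u * Y ω)) ∂P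
      ≤ ∫⁻ ω, (c 0 + ∑' n, (A n).indicator (fun _ => c n) ω) ∂P := by
        apply lintegral_mono
        intro ω
        dsimp only
        rcases le_total (Y ω) x₀ with k | k
        · refine le_trans (ENNReal.ofReal_le_ofReal ?_) le_self_add
          gcongr
          simp only [Nat.cast_zero]
          linarith
        · refine le_trans ?_ (le_add_left (ENNReal.le_tsum ⌊Y ω - x₀⌋₊))
          have k1 := Nat.floor_le (sub_nonneg.2 k)
          have k2 := Nat.lt_floor_add_one (Y ω - x₀)
          rw [Set.indicator_of_mem (show ω ∈ A _ from by simp only [A, Set.mem_ofPred_eq]; linarith)]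
          apply ENNReal.ofReal_le_ofReal
          gcongr
          linarith
    _ = c 0 + ∑' n, c n * P (A n) := by
        rw [lintegral_add_left measurable_const,
          lintegral_tsum fun n => (measurable_const.indicator (hA n)).aemeasurable]
        simp only [lintegral_indicator_const (hA _), lintegral_const, measure_univ, mul_one]
    _ ≤ c 0 + ∑' n : ℕ, ENNReal.ofReal (Real.exp (u * (x₀ + 1) - u' * x₀)) *
          ENNReal.ofReal (Real.exp (u - u')) ^ n := by
        gcongr _ + ∑' n, ?_ with n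
        rw [← ofReal_measureReal (μ := P) (s := A n)]
        refine (mul_le_mul_right (ENNReal.ofReal_le_ofReal
          (h (x₀ + n) (by linarith [Nat.cast_nonneg (α := ℝ) n]))) _).trans (le_of_eq ?_)
        rw [← ENNReal.ofReal_mul (Real.exp_pos _).le, ← ENNReal.ofReal_pow (Real.exp_pos _).le,
          ← ENNReal.ofReal_mul (Real.exp_pos _).le, ← Real.exp_nat_mul, ← Real.exp_add,
          ← Real.exp_add]
        congr 2
        ring
    _ < ⊤ := by
        rw [ENNReal.tsum_mul_left, ENNReal.tsum_geometric]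
        have : ENNReal.ofReal (Real.exp (u - u')) < 1 := by
          rw [ENNReal.ofReal_lt_one]
          exact Real.exp_lt_one_iff.mpr (by linarith)
        exact ENNReal.add_lt_top.2 ⟨ENNReal.ofReal_lt_top, ENNReal.mul_lt_top ENNReal.ofReal_lt_top
          (ENNReal.inv_lt_top.2 (tsub_pos_of_lt this))⟩

theorem loc_above (η : ℕ → Ω → ℝ) (hm : ∀ i, Measurable (η i)) (hind : iIndepFun η P)
    (hid : ∀ i, IdentDistrib (η i) (η 0) P P) (s lam h Λ : ℝ) (hs : 0 < s) (hΛ : 0 ≤ Λ)
    (hl : Λ < lam) (hint : ¬ Integrable (fun ω => Real.exp (2 / 3 * Λ * s * η 0 ω)) P) :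
    ¬ FreeEnergyEq P η lam h s h := by
  have hd : 0 < (lam - Λ) * s := mul_pos (by linarith) hs
  by_contra hF
  refine hint (integrable_of_tail (η 0) (hm 0) _ ((lam + Λ) / 3 * s)
    (2 * (8 + Real.log 12) / ((lam - Λ) * s)) (by positivity) (by nlinarith) fun x hx => ?_)
  by_contra hc
  push Not at hc
  refine loc_of_tail η hm hind hid s lam h x hs.le (by linarith) ((Real.exp_pos _).trans hc) ?_ hF
  have h1 := (Real.lt_log_iff_exp_lt ((Real.exp_pos _).trans hc)).2 hc
  rw [div_le_iff₀ hd] at hx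
  nlinarith

theorem openness_frac (η : ℕ → Ω → ℝ) (hm : ∀ i, Measurable (η i)) (hind : iIndepFun η P)
    (hid : ∀ i, IdentDistrib (η i) (η 0) P P) (s lam h Λ₀ : ℝ) (hlam : 0 ≤ lam) (hh : 0 ≤ h)
    (hΛ₀ : lam < Λ₀) (hint : Integrable (fun ω => Real.exp (2 / 3 * Λ₀ * s * η 0 ω)) P)
    (hd : FreeEnergyEq P η lam h s h) :
    ∃ lam', lam < lam' ∧ FreeEnergyEq P η lam' (h + Real.log 2) s (h + Real.log 2) := by
  have hh' : 0 ≤ h + Real.log 2 := by
    have := Real.log_nonneg (by norm_num : (1 : ℝ) ≤ 2)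
    linarith
  set Λ : ℝ := (lam + 2 * Λ₀) / 3 with hΛd
  have hΛ : lam < Λ := by linarith
  have hΛp : 0 < Λ := by linarith
  obtain ⟨m, h3⟩ := deloc_shift η hm hind hid (fun x => Λ * (1 + s * x)) (by fun_prop)
    (γ := 2 / 3 * Λ₀ / Λ) (by rw [lt_div_iff₀ hΛp]; linarith) (by rw [div_le_one hΛp]; linarith)
    (by
      have e : ∀ x : ℝ, Real.exp (2 / 3 * Λ₀ / Λ * (Λ * (1 + s * x))) =
          Real.exp (2 / 3 * Λ₀) * Real.exp (2 / 3 * Λ₀ * s * x) := by
        intro x
        rw [← Real.exp_add]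
        congr 1
        field_simp
      simp only [e]
      exact hint.const_mul _) _ hh'
  set ρ : ℝ := (Λ - lam) / (lam + 1) with hρ
  have hρpos : 0 < ρ := div_pos (by linarith) (by linarith)
  have hρe : ρ * (lam + 1) = Λ - lam := by rw [hρ]; field_simp
  let β : ℝ → ℝ := fun x => Real.log (1 + bonus h (lam * (1 + s * x)))
  have hβm : Measurable β := by
    apply Real.measurable_log.comp
    exact measurable_const.add ((measurable_bonus h).comp (by fun_prop))
  have hβpos : ∀ x, 0 < β x := fun x => Real.log_pos (by linarith [bonus_pos h (lam * (1 + s * x))])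
  have hmeas : ∀ D : ℕ, Measurable fun ω => Real.exp (-(D * β (η 0 ω))) := by
    intro D
    exact Real.measurable_exp.comp ((measurable_const.mul (hβm.comp (hm 0))).neg)
  have hbd : ∀ (D : ℕ) (ω : Ω), ‖Real.exp (-(D * β (η 0 ω)))‖ ≤ 1 := by
    intro D ω
    rw [Real.norm_eq_abs, abs_of_pos (Real.exp_pos _), Real.exp_le_one_iff]
    have := mul_nonneg (Nat.cast_nonneg (α := ℝ) D) (hβpos (η 0 ω)).le
    linarith
  have hlim : Tendsto (fun D : ℕ => ∫ ω, Real.exp (-(D * β (η 0 ω))) ∂P) atTop
      (𝓝 (∫ _ω, (0 : ℝ) ∂P)) := by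
    apply tendsto_integral_of_dominated_convergence (fun _ => (1 : ℝ))
      (fun D => (hmeas D).aestronglyMeasurable) (integrable_const _)
      (fun D => Eventually.of_forall (hbd D))
    refine Eventually.of_forall fun ω => ?_
    apply Real.tendsto_exp_neg_atTop_nhds_zero.comp
    exact tendsto_natCast_atTop_atTop.atTop_mul_const (hβpos _)
  rw [integral_zero] at hlim
  obtain ⟨D, hD⟩ := ((tendsto_order.1 hlim).2 (Real.exp (-(m / ρ))) (Real.exp_pos _)).exists
  have hintD : Integrable (fun ω => Real.exp (-(D * β (η 0 ω)))) P :=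
    Integrable.of_bound (hmeas D).aestronglyMeasurable 1 (Eventually.of_forall (hbd D))
  have e4 : ∀ x : ℝ, Real.exp (m / ρ - D * β x) = Real.exp (m / ρ) * Real.exp (-(D * β x)) := by
    intro x
    rw [← Real.exp_add]; rfl
  have h4 := annealed_iid η hm hind hid (fun x => m / ρ - D * β x)
    (measurable_const.sub (measurable_const.mul hβm)) 2
    (by simp only [e4]; exact hintD.const_mul _)
    (by
      simp only [e4]
      rw [integral_const_mul]
      have := mul_le_mul_of_nonneg_left hD.le (Real.exp_pos (m / ρ)).le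
      rw [← Real.exp_add, add_neg_cancel, Real.exp_zero] at this
      exact this) _ hh'
  have hDn : (0 : ℝ) ≤ D := Nat.cast_nonneg D
  have hden : 0 < 1 + ρ + ρ * D := by positivity
  refine ⟨lam + ρ / (1 + ρ + ρ * D), by linarith [div_pos hρpos hden], ?_⟩
  rw [freeEnergyEq_iff] at hd ⊢
  filter_upwards [hd, h3, h4] with ω k0 k3 k4
  have k1 := k0.two_mul (compare_zero _ h hh)
  have k5 := k3.convex k4 (1 / (1 + ρ)) (ρ / (1 + ρ)) (by positivity) (by positivity)
    (by field_simp)
  have k6 := k1.convex k5 (ρ * D / (1 + ρ + ρ * D)) ((1 + ρ) / (1 + ρ + ρ * D)) (by positivity)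
    (by positivity) (by field_simp; ring)
  have e : (fun i => (lam + ρ / (1 + ρ + ρ * D)) * (1 + s * η i ω)) =
      fun i => ρ * D / (1 + ρ + ρ * D) * enh (fun i => lam * (1 + s * η i ω)) h i +
        (1 + ρ) / (1 + ρ + ρ * D) * (1 / (1 + ρ) * (Λ * (1 + s * η i ω) - m) +
          ρ / (1 + ρ) * (m / ρ - D * β (η (i + 2) ω))) := by
    funext i
    have hΛ' : Λ = ρ * (lam + 1) + lam := by linarith
    simp only [enh, β]
    generalize Real.log (1 + bonus h (lam * (1 + s * η (i + 2) ω))) = b
    generalize 1 + s * η i ω = y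
    rw [hΛ']
    field_simp
    ring
  rw [e]
  exact k6

end Pool.Agent.Lib.MP_11b949_pr
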