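import Mathlib
import Pool.Agent.Lib.MP_11b949_pr.Loc

set_option autoImplicit false

open Finset MeasureTheory ProbabilityTheory Filter Topology
open scoped ENNReal NNReal

namespace Pool.Agent.Lib.MP_11b949_pr

/-- The exponents of the fractional moments. -/
noncomputable def gam (k : ℕ) : ℝ := 2 / 3 + 1 / (3 * ((k : ℝ) + 1))

theorem gam_gt (k : ℕ) : 2 / 3 < gam k := by
  have : 0 < 1 / (3 * ((k : ℝ) + 1)) := by positivity
  unfold gam; linarith

theorem gam_succ_le (k : ℕ) : gam (k + 1) ≤ gam k := by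
  unfold gam; push_cast; gcongr; linarith

theorem gam_zero : gam 0 = 1 := by norm_num [gam]

theorem gam_le (k : ℕ) : gam k ≤ 1 := by
  induction k with
  | zero => exact gam_zero.le
  | succ k ih => exact (gam_succ_le k).trans ih

theorem exists_h (l : ℝ) (h0 : 0 < l) (h1 : l < Real.log 2) : ∃ h : ℝ, 0 ≤ h ∧ ∃ C : ℝ≥0∞, C ≠ ⊤ ∧
    ∀ a b, a < b → gr (kk h) (fun _ => ENNReal.ofReal (Real.exp l)) a b ≤
      C * wt (3 / 2) (b - a) := by
  have e1 : Real.exp l < 2 := (Real.lt_log_iff_exp_lt (by norm_num)).1 h1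
  have e2 : 1 < Real.exp l := Real.one_lt_exp_iff.2 h0
  have e3 : 0 < 1 / Real.exp l - 1 / 2 := by
    rw [sub_pos]; exact one_div_lt_one_div_of_lt (by linarith) e1
  have e4 : 1 / Real.exp l ≤ 1 := by rw [div_le_one (by linarith)]; linarith
  have e5 := Real.log_nonpos e3.le (by linarith)
  set h := -Real.log (1 / Real.exp l - 1 / 2) / 2 with hh
  have hh0 : 0 ≤ h := by linarith
  have e6 : Real.exp (-2 * h) = 1 / Real.exp l - 1 / 2 := by
    rw [← Real.exp_log e3, hh]; congr 1; ring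
  obtain ⟨C, hC, H⟩ := sub_bound (3 / 2) (by norm_num) (by norm_num) 2
    (ENNReal.ofReal ((1 + Real.exp (-2 * h)) / 2)) (ENNReal.ofReal (Real.exp l)) (by simp)
    ENNReal.ofReal_ne_top ENNReal.ofReal_ne_top (by
      rw [← ENNReal.ofReal_mul (by linarith), ENNReal.ofReal_lt_one, e6]
      have : Real.exp l * (1 / Real.exp l) = 1 := by field_simp
      nlinarith)
  refine ⟨h, hh0, C, hC, H (kk h) _ (fun a b _ => (gr_eq _ _ a b).le) (fun n => ?_) (kk_le h hh0)⟩
  simp only [kk]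
  rw [← ENNReal.ofReal_sum_of_nonneg fun g _ => exc_nonneg h g]
  exact ENNReal.ofReal_le_ofReal (exc_sum h n)

theorem exists_seq (C₀ : ℝ≥0∞) (h0 : C₀ ≠ ⊤) : ∃ (C : ℕ → ℝ≥0∞) (d : ℕ → ℝ), C 0 = C₀ ∧
    (∀ k, C k ≠ ⊤) ∧ (∀ k, 0 < d k) ∧ (∀ k, d k ≤ (1 / 2) ^ (k + 1)) ∧
    ∀ k (V : ℕ → ℕ → ℝ≥0∞),
      SubSol (fun g => (1 + C k) * wt (3 / 2 * gam (k + 1)) g) (ENNReal.ofReal (d k)) V →
        ∀ a b, a < b → V a b ≤ C (k + 1) * wt (3 / 2 * gam (k + 1)) (b - a) := by
  have H := fun (k : ℕ) (C : {C : ℝ≥0∞ // C ≠ ⊤}) =>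
    level_step (gam_gt (k + 1)) (gam_le (k + 1)) (1 + C.1) (by have := C.2; finiteness)
  choose δ hδ C' hC' H using H
  let C : ℕ → {C : ℝ≥0∞ // C ≠ ⊤} := fun k => Nat.rec ⟨C₀, h0⟩ (fun k C => ⟨C' k C, hC' k C⟩) k
  refine ⟨fun k => (C k).1, fun k => min (δ k (C k)) ((1 / 2) ^ (k + 1)), rfl, fun k => (C k).2,
    fun k => lt_min (hδ _ _) (by positivity), fun k => min_le_right _ _, fun k V hV => ?_⟩
  refine H k (C k) V fun a b hab => (hV a b hab).trans ?_
  gcongr
  exact min_le_left _ _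

theorem exists_law (p : ℕ → ℝ) (h1 : ∀ k, p k ≤ (1 / 2) ^ (k + 1)) :
    ∃ μ : Measure ℕ, IsProbabilityMeasure μ ∧ ∀ k, μ {k + 1} = ENNReal.ofReal (p k) := by
  have hs : ∑' k, ENNReal.ofReal (p k) ≤ 1 := by
    refine (ENNReal.tsum_le_tsum fun k => ENNReal.ofReal_le_ofReal (h1 k)).trans (le_of_eq ?_)
    rw [← ENNReal.ofReal_tsum_of_nonneg (fun k => by positivity)
      ((summable_nat_add_iff 1).2 summable_geometric_two)]
    simp only [pow_succ]
    rw [tsum_mul_right, tsum_geometric_two]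
    norm_num
  let π : ℕ → ℝ≥0∞ := fun j => Nat.casesOn j (1 - ∑' k, ENNReal.ofReal (p k))
    fun k => ENNReal.ofReal (p k)
  have hπ : HasSum π 1 := by
    rw [ENNReal.summable.hasSum_iff, tsum_eq_zero_add' ENNReal.summable]
    exact tsub_add_cancel_of_le hs
  exact ⟨PMF.toMeasure ⟨π, hπ⟩, inferInstance, fun k =>
    PMF.toMeasure_apply_singleton _ _ (measurableSet_singleton _)⟩

variable {Ω : Type} [MeasurableSpace Ω] {P : Measure Ω} [IsProbabilityMeasure P]

omit [IsProbabilityMeasure P] in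
theorem trunc {μ : Measure ℕ} {J : ℕ → Ω → ℕ} (hJ : ∀ i, HasLaw (J i) μ P) (hind : iIndepFun J P)
    (Y : ℕ → ℝ) (hY : ∀ j, 0 ≤ Y j) (hint : Integrable Y μ) (c h : ℝ)
    (H : ∀ K, ∀ᵐ ω ∂P, SubExp fun n =>
      G (fun i => c + if J i ω ≤ K then Y (J i ω) else 0) h n 0 0) :
    ∀ᵐ ω ∂P, SubExp fun n => G (fun i => c + Y (J i ω)) h n 0 0 := by
  let T : ℕ → ℕ → ℝ := fun K j => if j ≤ K then 0 else Y j
  have hT0 : ∀ K j, 0 ≤ T K j := fun K j => by
    simp only [T]; split_ifs; exacts [le_rfl, hY j]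
  have hT1 : ∀ K j, ‖T K j‖ ≤ Y j := fun K j => by
    rw [Real.norm_of_nonneg (hT0 K j)]
    simp only [T]; split_ifs; exacts [hY j, le_rfl]
  have hTm : ∀ K, Measurable (T K) := fun K => measurable_of_countable _
  have hlim : Tendsto (fun K => ∫ j, T K j ∂μ) atTop (𝓝 (∫ _j, (0 : ℝ) ∂μ)) := by
    apply tendsto_integral_of_dominated_convergence Y (fun K => (hTm K).aestronglyMeasurable) hint
      (fun K => Eventually.of_forall (hT1 K))
    refine Eventually.of_forall fun j => tendsto_const_nhds.congr' ?_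
    filter_upwards [eventually_ge_atTop j] with K hK
    simp [T, hK]
  rw [integral_zero] at hlim
  have hsl : ∀ K, ∀ᵐ ω ∂P, Tendsto (fun n : ℕ => (∑ i ∈ range n, (T K ∘ J (i + 1)) ω) / n) atTop
      (𝓝 (∫ j, T K j ∂μ)) := by
    intro K
    have h1 : Integrable (T K) μ :=
      hint.mono' (hTm K).aestronglyMeasurable (Eventually.of_forall (hT1 K))
    have h2 := strong_law_ae_real (μ := P) (fun i => T K ∘ J (i + 1))
      ((((hJ _).identDistrib HasLaw.id).comp (hTm K)).integrable_iff.2 h1)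
      (fun i j hij => (hind.indepFun (by omega)).comp (hTm K) (hTm K))
      (fun i => ((hJ _).identDistrib (hJ _)).comp (hTm K))
    rwa [(hJ _).integral_comp (hTm K).aestronglyMeasurable] at h2
  filter_upwards [ae_all_iff.2 H, ae_all_iff.2 hsl] with ω k1 k2
  intro ε hε
  obtain ⟨K, hK⟩ := ((tendsto_order.1 hlim).2 (ε / 2) (by linarith)).exists
  filter_upwards [k1 K (ε / 2) (by linarith), (tendsto_order.1 (k2 K)).2 _ hK,
    eventually_ge_atTop 1] with n a1 a2 a3
  have hn : (0 : ℝ) < n := by exact_mod_cast a3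
  rw [div_lt_iff₀ hn] at a2
  refine (G_le_mul _ (fun i => c + if J i ω ≤ K then Y (J i ω) else 0) (fun i => T K (J i ω)) h
    (fun i => hT0 _ _) (fun i => ?_) n).trans ?_
  · simp only [T]; split_ifs <;> simp
  · refine (mul_le_mul (Real.exp_le_exp.2 a2.le) a1 (G_pos _ _ _ _ _).le (by positivity)).trans
      (le_of_eq ?_)
    rw [← Real.exp_add]; congr 1; ring

theorem levels {μ : Measure ℕ} {J : ℕ → Ω → ℕ} (hm : ∀ i, Measurable (J i))
    (hJ : ∀ i, HasLaw (J i) μ P) (hind : iIndepFun J P) (c h : ℝ) (hh : 0 ≤ h) (Y : ℕ → ℝ)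
    (hY : Y 0 = 0) (C : ℕ → ℝ≥0∞) (d : ℕ → ℝ) (hC : ∀ k, C k ≠ ⊤)
    (h0 : ∀ a b, a < b → gr (kk h) (fun _ => ENNReal.ofReal (Real.exp c)) a b ≤
      C 0 * wt (3 / 2) (b - a))
    (hs : ∀ k (V : ℕ → ℕ → ℝ≥0∞),
      SubSol (fun g => (1 + C k) * wt (3 / 2 * gam (k + 1)) g) (ENNReal.ofReal (d k)) V →
        ∀ a b, a < b → V a b ≤ C (k + 1) * wt (3 / 2 * gam (k + 1)) (b - a))
    (hd : ∀ k, ENNReal.ofReal (Real.exp (c + Y (k + 1))) ^ gam (k + 1) * μ {k + 1} ≤
      ENNReal.ofReal (d k)) (K : ℕ) :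
    ∀ᵐ ω ∂P, SubExp fun n => G (fun i => c + if J i ω ≤ K then Y (J i ω) else 0) h n 0 0 := by
  let y : ℕ → ℕ → ℝ≥0∞ := fun k j => if j = k + 1 then ENNReal.ofReal (Real.exp (c + Y (k + 1))) else 0
  let f : ℕ → ℕ → ℝ≥0∞ := fun K j => ENNReal.ofReal (Real.exp c) + ∑ k ∈ range K, y k j
  have hg0 : ∀ k, 0 < gam k := fun k => by linarith [gam_gt k]
  have hmom : ∀ K a b, a < b → mom P J (kk h) (f K) (gam K) a b ≤
      C K * wt (3 / 2 * gam K) (b - a) := by
    intro K
    induction K with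
    | zero =>
      intro a b hab
      simpa [mom, f, gam_zero] using h0 a b hab
    | succ K ih =>
      have e : f (K + 1) = fun j => f K j + y K j := by
        funext j; simp only [f]; rw [sum_range_succ, add_assoc]
      rw [e]
      refine hs K _ (mom_subSol hm hind (kk h) (measurable_of_countable _)
        (measurable_of_countable _) (hg0 _) (gam_le _) (fun a b hab => mom_lower hm _
          (measurable_of_countable _) (hg0 _).le (gam_succ_le K) hab (ih a b hab)) fun i => ?_)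
      rw [(hJ i).lintegral_comp (f := fun j => y K j ^ gam (K + 1))
        (measurable_of_countable _).aemeasurable, lintegral_countable',
        tsum_eq_single (K + 1) fun j hj => by simp [y, hj, hg0]]
      simpa [y] using hd K
  refine deloc_of_mom hm hind h hh (measurable_of_countable (f K))
    (fun j => c + if j ≤ K then Y j else 0) (fun j => ?_) (gam_gt K) (gam_le K) (hC K)
    (ρ := (ENNReal.ofReal (Real.exp c) +
      ∑ k ∈ range K, ENNReal.ofReal (Real.exp (c + Y (k + 1)))) ^ gam K)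
    (ENNReal.rpow_ne_top_of_nonneg (hg0 K).le (ENNReal.add_ne_top.2 ⟨ENNReal.ofReal_ne_top,
      ENNReal.sum_ne_top.2 fun _ _ => ENNReal.ofReal_ne_top⟩)) (hmom K) (fun i => ?_)
  · split_ifs with hj
    · cases j with
      | zero => simp [f, hY]
      | succ j =>
        refine le_add_left (le_trans ?_ (single_le_sum (f := fun k => y k (j + 1))
          (fun _ _ => zero_le) (mem_range.2 (by omega : j < K))))
        simp [y]
    · simp [f]
  · refine (lintegral_mono fun ω => ?_).trans (by rw [lintegral_const, measure_univ, mul_one])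
    refine ENNReal.rpow_le_rpow ?_ (hg0 K).le
    simp only [f]
    gcongr with k _
    simp only [y]
    split_ifs
    exacts [le_rfl, zero_le]

theorem base (l : ℝ) (h0 : 0 < l) (h1 : l < Real.log 2) :
    ∃ (μ : Measure ℕ) (Y : ℕ → ℝ) (h : ℝ), IsProbabilityMeasure μ ∧ (∀ j, 0 ≤ Y j) ∧ 0 ≤ h ∧
      Integrable (fun j => Real.exp (2 / 3 * Y j)) μ ∧
      (∀ u, 2 / 3 < u → ¬ Integrable (fun j => Real.exp (u * Y j)) μ) ∧
      0 < μ.real {1} ∧ μ.real {1} < 1 ∧
      ∀ (Ω : Type) [MeasurableSpace Ω] (P : Measure Ω) [IsProbabilityMeasure P] (J : ℕ → Ω → ℕ),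
        (∀ i, Measurable (J i)) → (∀ i, HasLaw (J i) μ P) → iIndepFun J P →
          ∀ᵐ ω ∂P, SubExp fun n => G (fun i => l + Y (J i ω)) h n 0 0 := by
  obtain ⟨h, hh, C₀, hC₀, hb⟩ := exists_h l h0 h1
  obtain ⟨C, d, c0, c1, d0, d1, hs⟩ := exists_seq C₀ hC₀
  have d2 : ∀ k, d k ≤ 1 := fun k => (d1 k).trans (pow_le_one₀ (by norm_num) (by norm_num))
  let x : ℕ → ℝ := fun k => ((k : ℝ) + 1) * (l - Real.log (d k))
  have x0 : ∀ k, 0 ≤ x k := fun k =>
    mul_nonneg (by positivity) (by linarith [Real.log_nonpos (d0 k).le (d2 k)])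
  let p : ℕ → ℝ := fun k => d k * Real.exp (-(gam (k + 1) * (l + x k)))
  have p0 : ∀ k, 0 < p k := fun k => mul_pos (d0 k) (Real.exp_pos _)
  have p1 : ∀ k, Real.exp (2 / 3 * x k) * p k ≤ d k := by
    intro k
    simp only [p]
    rw [mul_left_comm, ← Real.exp_add]
    refine mul_le_of_le_one_right (d0 k).le (Real.exp_le_one_iff.2 ?_)
    nlinarith [gam_gt (k + 1), x0 k]
  have p2 : ∀ k, p k ≤ d k := fun k =>
    (le_mul_of_one_le_left (p0 k).le (Real.one_le_exp (by linarith [x0 k]))).trans (p1 k)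
  obtain ⟨μ, hμ, hμ'⟩ := exists_law p fun k => (p2 k).trans (d1 k)
  let Y : ℕ → ℝ := fun j => Nat.casesOn j 0 x
  have Y0 : ∀ j, 0 ≤ Y j := fun j => by cases j; exacts [le_rfl, x0 _]
  have hfin : ∀ u : ℝ, Integrable (fun j => Real.exp (u * Y j)) μ ↔
      ∑' j, ENNReal.ofReal (Real.exp (u * Y j)) * μ {j} < ⊤ := by
    intro u
    rw [← lintegral_countable', ← hasFiniteIntegral_iff_ofReal
      (Eventually.of_forall fun j => (Real.exp_pos _).le)]
    exact and_iff_right (measurable_of_countable _).aestronglyMeasurable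
  have hint : Integrable (fun j => Real.exp (2 / 3 * Y j)) μ := by
    rw [hfin, tsum_eq_zero_add' ENNReal.summable]
    refine ENNReal.add_lt_top.2 ⟨ENNReal.mul_lt_top ENNReal.ofReal_lt_top (measure_lt_top _ _), ?_⟩
    refine (ENNReal.tsum_le_tsum (g := fun k => ENNReal.ofReal ((1 / 2) ^ (k + 1)))
      fun k => ?_).trans_lt ?_
    · rw [hμ', ← ENNReal.ofReal_mul (Real.exp_pos _).le]
      exact ENNReal.ofReal_le_ofReal ((p1 k).trans (d1 k))
    · rw [← ENNReal.ofReal_tsum_of_nonneg (fun k => by positivity)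
        ((summable_nat_add_iff 1).2 summable_geometric_two)]
      exact ENNReal.ofReal_lt_top
  have e1 : μ.real {1} = p 0 := by
    rw [measureReal_def, show ({1} : Set ℕ) = {0 + 1} from rfl, hμ', ENNReal.toReal_ofReal (p0 0).le]
  refine ⟨μ, Y, h, hμ, Y0, hh, hint, fun u hu hi => ?_, e1 ▸ p0 0,
    e1 ▸ ((p2 0).trans (d1 0)).trans_lt (by norm_num), fun Ω _ P _ J hm hJ hind => ?_⟩
  · have h2 := (ENNReal.tendsto_atTop_zero_of_tsum_ne_top ((hfin u).1 hi).ne).comp
      (tendsto_add_atTop_nat 1)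
    have h3 := (tendsto_order.1 h2).2 1 one_pos
    have h4 : ∀ᶠ k : ℕ in atTop, 2 / (u - 2 / 3) ≤ (k : ℝ) :=
      tendsto_natCast_atTop_atTop.eventually_ge_atTop _
    obtain ⟨k, a1, a2⟩ := (h3.and h4).exists
    simp only [Function.comp] at a1
    rw [hμ', ← ENNReal.ofReal_mul (Real.exp_pos _).le, ENNReal.ofReal_lt_one] at a1
    rw [div_le_iff₀ (by linarith)] at a2
    have a3 : Real.exp (u * x k) * p k =
        Real.exp (Real.log (d k) + (u * x k - gam (k + 1) * (l + x k))) := by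
      rw [Real.exp_add, Real.exp_log (d0 k), sub_eq_add_neg, Real.exp_add]
      simp only [p]; ring
    change Real.exp (u * x k) * p k < 1 at a1
    rw [a3, Real.exp_lt_one_iff] at a1
    have hk : (0 : ℝ) ≤ k := Nat.cast_nonneg k
    have a4 : 1 ≤ (u - gam (k + 1)) * ((k : ℝ) + 1) := by
      have : 1 / (3 * (((k + 1 : ℕ) : ℝ) + 1)) * ((k : ℝ) + 1) ≤ 1 := by
        push_cast
        rw [div_mul_eq_mul_div, div_le_one (by positivity)]; linarith
      unfold gam
      nlinarith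
    have a5 : 0 ≤ l - Real.log (d k) := by linarith [Real.log_nonpos (d0 k).le (d2 k)]
    have a6 := mul_le_mul_of_nonneg_right a4 a5
    have a7 := mul_le_mul_of_nonneg_right (gam_le (k + 1)) h0.le
    simp only [x] at a1
    nlinarith
  · have hYi : Integrable Y μ := by
      refine (hint.const_mul (3 / 2)).mono' (measurable_of_countable _).aestronglyMeasurable
        (Eventually.of_forall fun j => ?_)
      rw [Real.norm_of_nonneg (Y0 j)]
      linarith [Real.add_one_le_exp (2 / 3 * Y j)]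
    refine trunc hJ hind Y Y0 hYi l h
      (levels hm hJ hind l h hh Y rfl C d c1 (c0 ▸ hb) hs fun k => le_of_eq ?_)
    rw [hμ', ENNReal.ofReal_rpow_of_pos (Real.exp_pos _), ← ENNReal.ofReal_mul (by positivity),
      ← Real.exp_mul]
    congr 1
    change Real.exp ((l + x k) * gam (k + 1)) * (d k * Real.exp (-(gam (k + 1) * (l + x k)))) = d k
    rw [mul_left_comm, ← Real.exp_add, mul_comm (l + x k), add_neg_cancel, Real.exp_zero, mul_one]

end Pool.Agent.Lib.MP_11b949_pr
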