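import Mathlib
import Pool.Agent.Lib.MP_11b949_pr.Defs

set_option autoImplicit false

open MeasureTheory ProbabilityTheory
open scoped ENNReal NNReal

namespace Pool.Agent.Lib.MP_11b949_pr

variable {Ω : Type} [MeasurableSpace Ω]

/-- `P` is a probability measure and the `η i` are i.i.d., integrable and centred. -/
structure IsDisorder (P : Measure Ω) (η : ℕ → Ω → ℝ) : Prop where
  prob : IsProbabilityMeasure P
  meas : ∀ i, Measurable (η i)
  indep : iIndepFun η P
  ident : ∀ i, IdentDistrib (η i) (η 0) P P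
  integrable : Integrable (η 0) P
  centred : ∫ ω, η 0 ω ∂P = 0

/-- The moment threshold `λ*(s) = sup {Λ ≥ 0 : E exp((2/3) Λ s η) < ∞} ∈ [0,∞]`. -/
noncomputable def momLam (P : Measure Ω) (η : ℕ → Ω → ℝ) (s : ℝ) : ℝ≥0∞ :=
  ⨆ (Λ : ℝ≥0) (_ : Integrable (fun ω => Real.exp (2 / 3 * Λ * s * η 0 ω)) P), (Λ : ℝ≥0∞)

end Pool.Agent.Lib.MP_11b949_pr
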