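import Mathlib
import Pool.Agent.Lib.MP_11b949_pr.Base
import Pool.Agent.Lib.MP_11b949_pr.Defs2

set_option autoImplicit false

open Finset MeasureTheory ProbabilityTheory Filter Topology
open scoped ENNReal NNReal

namespace Pool.Agent.Lib.MP_11b949_pr

theorem SubExp.mono_env {ω ω' : ℕ → ℝ} {h : ℝ} (H : SubExp fun n => G ω' h n 0 0)
    (hω : ∀ i, ω i ≤ ω' i) : SubExp fun n => G ω h n 0 0 := by
  intro ε hε
  filter_upwards [H ε hε] with n hn
  have := G_le_mul ω ω' (fun _ => 0) h (fun _ => le_rfl) (by simpa using hω) n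
  simp only [sum_const_zero, Real.exp_zero, one_mul] at this
  exact this.trans hn

theorem SubExp.mono_h {ω : ℕ → ℝ} {h h' : ℝ} (H : SubExp fun n => G ω h n 0 0) (hh : h ≤ h') :
    SubExp fun n => G ω h' n 0 0 := by
  intro ε hε
  filter_upwards [H ε hε] with n hn
  refine le_trans ?_ hn
  unfold G hamG term edgeSign
  gcongr (∑ _, Real.exp (∑ _ ∈ _, ?_)) / _ with e _ i _
  split_ifs <;> nlinarith

theorem bonus_mono (h : ℝ) {c c' : ℝ} (hc : c ≤ c') : bonus h c ≤ bonus h c' := by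
  have h1 := Real.exp_le_exp.2 hc
  have h2 := Real.exp_pos c
  have h3 := Real.exp_pos (-2 * h)
  unfold bonus
  gcongr _ * ?_ / 2
  rw [div_le_div_iff₀ (by linarith) (by linarith)]
  nlinarith [mul_le_mul_of_nonneg_left h1 h3.le]

theorem SubExp.shift {ω ω' : ℕ → ℝ} {h R : ℝ} (hh : 0 ≤ h) (H : SubExp fun n => G ω h n 0 0)
    (hR : ∀ i, R ≤ ω i) (hω : ∀ i, ω' i ≤ ω i + Real.log (1 + bonus h R)) :
    SubExp fun n => G ω' (h + Real.log 2) n 0 0 := by
  refine (H.two_mul (compare_zero _ h hh)).mono_env fun i => (hω i).trans ?_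
  have := bonus_pos h R
  unfold enh
  gcongr
  exact bonus_mono h (hR _)

variable {Ω : Type} [MeasurableSpace Ω] {P : Measure Ω}

theorem IsDisorder.bdd {η : ℕ → Ω → ℝ} (H : IsDisorder P η) (s : ℝ) :
    BddAbove {lam : ℝ | 0 ≤ lam ∧ critCurve P η lam s < ⊤} := by
  have := H.prob
  refine ⟨Real.log 4, ?_⟩
  rintro lam ⟨_, h⟩
  obtain ⟨h, _, hd⟩ := (critCurve_lt_top η lam s).mp h
  exact deloc_le η H.indep H.ident H.integrable H.centred s lam h hd

theorem zero_mem (η : ℕ → Ω → ℝ) (s : ℝ) :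
    (0 : ℝ) ∈ {lam : ℝ | 0 ≤ lam ∧ critCurve P η lam s < ⊤} :=
  ⟨le_rfl, (critCurve_lt_top η 0 s).mpr ⟨0, le_rfl, deloc_zero η s⟩⟩

theorem below (η : ℕ → Ω → ℝ) (s lam : ℝ) (h1 : 0 ≤ lam) (h2 : lam < critLam P η s) :
    critCurve P η lam s < ⊤ := by
  obtain ⟨lam', ⟨_, h4⟩, h5⟩ := exists_lt_of_lt_csSup ⟨0, zero_mem η s⟩ h2
  obtain ⟨h, hh, hd⟩ := (critCurve_lt_top η _ s).mp h4
  exact (critCurve_lt_top η _ s).mpr ⟨h, hh, deloc_mono η s lam' lam h h1 h5.le hh hd⟩

theorem IsDisorder.nonneg {η : ℕ → Ω → ℝ} (H : IsDisorder P η) (s : ℝ) : 0 ≤ critLam P η s :=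
  le_csSup (H.bdd s) (zero_mem η s)

theorem IsDisorder.above {η : ℕ → Ω → ℝ} (H : IsDisorder P η) (s lam : ℝ)
    (h1 : critLam P η s < lam) : critCurve P η lam s = ⊤ := by
  by_contra h2
  exact h1.not_ge (le_csSup (H.bdd s) ⟨(H.nonneg s).trans h1.le, lt_top_iff_ne_top.mpr h2⟩)

theorem IsDisorder.endpoint {η : ℕ → Ω → ℝ} (H : IsDisorder P η) (s Λ : ℝ)
    (hΛ : critLam P η s < Λ) (hint : Integrable (fun ω => Real.exp (2 / 3 * Λ * s * η 0 ω)) P) :
    0 < critLam P η s ∧ critCurve P η (critLam P η s) s = ⊤ := by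
  have := H.prob
  have hnot : critCurve P η (critLam P η s) s = ⊤ := by
    by_contra h2
    obtain ⟨h, hh, hd⟩ := (critCurve_lt_top η _ s).mp (lt_top_iff_ne_top.mpr h2)
    obtain ⟨lam', h3, h4⟩ := openness_frac η H.meas H.indep H.ident s _ h Λ (H.nonneg s) hh hΛ
      hint hd
    exact ((critCurve_lt_top η _ s).mpr ⟨_, add_nonneg hh (Real.log_nonneg one_le_two), h4⟩).ne
      (H.above s _ h3)
  refine ⟨(H.nonneg s).lt_of_ne fun h => ?_, hnot⟩
  rw [← h] at hnot
  exact (zero_mem η s).2.ne hnot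

theorem IsDisorder.loc {η : ℕ → Ω → ℝ} (H : IsDisorder P η) {s Λ : ℝ} (hs : 0 < s) (hΛ : 0 ≤ Λ)
    (hint : ¬ Integrable (fun ω => Real.exp (2 / 3 * Λ * s * η 0 ω)) P) : critLam P η s ≤ Λ := by
  have := H.prob
  refine csSup_le ⟨0, zero_mem η s⟩ fun lam h => le_of_not_gt fun hl => ?_
  obtain ⟨h, _, hd⟩ := (critCurve_lt_top η _ s).mp h.2
  exact loc_above η H.meas H.indep H.ident s lam h Λ hs hΛ hl hint hd

theorem IsDisorder.le_momLam {η : ℕ → Ω → ℝ} (H : IsDisorder P η) {s : ℝ} (hs : 0 < s) :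
    ENNReal.ofReal (critLam P η s) ≤ momLam P η s := by
  refine ENNReal.le_of_forall_nnreal_lt fun Λ hΛ => ?_
  refine le_iSup₂_of_le Λ ?_ le_rfl
  by_contra hc
  exact ((ENNReal.ofReal_le_ofReal (H.loc hs Λ.coe_nonneg hc)).trans_eq
    ENNReal.ofReal_coe_nnreal).not_gt hΛ

theorem IsDisorder.endpoint' {η : ℕ → Ω → ℝ} (H : IsDisorder P η) {s : ℝ}
    (h : ENNReal.ofReal (critLam P η s) < momLam P η s) :
    0 < critLam P η s ∧ critCurve P η (critLam P η s) s = ⊤ := by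
  obtain ⟨Λ, h1⟩ := lt_iSup_iff.1 h
  obtain ⟨h2, h3⟩ := lt_iSup_iff.1 h1
  exact H.endpoint s Λ ((ENNReal.ofReal_lt_coe_iff (H.nonneg s)).1 h3) h2

theorem bdd_mul {μ : Measure ℕ} {Y z : ℕ → ℝ} {R u : ℝ} (hz : ∀ j, |z j| ≤ R)
    (h : Integrable (fun j => Real.exp (u * Y j)) μ) :
    Integrable (fun j => Real.exp (u * (Y j + z j))) μ := by
  refine (h.const_mul (Real.exp (|u| * R))).mono' (measurable_of_countable _).aestronglyMeasurable
    (Eventually.of_forall fun j => ?_)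
  rw [Real.norm_of_nonneg (Real.exp_pos _).le, ← Real.exp_add, Real.exp_le_exp]
  have h1 := le_abs_self (u * z j)
  rw [abs_mul] at h1
  nlinarith [mul_le_mul_of_nonneg_left (hz j) (abs_nonneg u)]

theorem family {μ : Measure ℕ} [IsProbabilityMeasure μ] [IsProbabilityMeasure P] {J : ℕ → Ω → ℕ}
    (hm : ∀ i, Measurable (J i)) (hJ : ∀ i, HasLaw (J i) μ P) (hind : iIndepFun J P)
    {Y z : ℕ → ℝ} {R s l : ℝ} (hs : 0 < s) (hl : 0 < l) (hY : ∀ j, 0 ≤ Y j) (hz : ∀ j, |z j| ≤ R)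
    (h1 : Integrable (fun j => Real.exp (2 / 3 * Y j)) μ)
    (h2 : ∀ u, 2 / 3 < u → ¬ Integrable (fun j => Real.exp (u * Y j)) μ)
    (h3 : ∫ j, (Y j + z j) ∂μ = 0) (η : ℕ → Ω → ℝ)
    (hη : η = fun i ω => (Y (J i ω) + z (J i ω)) / (l * s)) :
    IsDisorder P η ∧ MemLp (η 0) 2 P ∧ momLam P η s = ENNReal.ofReal l := by
  let φ : ℕ → ℝ := fun j => (Y j + z j) / (l * s)
  have hφ : Measurable φ := measurable_of_countable _
  have hη' : ∀ i, η i = φ ∘ J i := fun i => by rw [hη]; rfl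
  have hid : IdentDistrib (J 0) id P μ := (hJ 0).identDistrib HasLaw.id
  have hY2 : MemLp Y 2 μ := by
    rw [memLp_two_iff_integrable_sq (measurable_of_countable _).aestronglyMeasurable]
    refine (h1.const_mul (9 / 2)).mono' (measurable_of_countable _).aestronglyMeasurable
      (Eventually.of_forall fun j => ?_)
    rw [Real.norm_of_nonneg (sq_nonneg _)]
    have := Real.quadratic_le_exp_of_nonneg (x := 2 / 3 * Y j) (by linarith [hY j])
    nlinarith [hY j]
  have hz2 : MemLp z 2 μ := MemLp.of_bound (measurable_of_countable _).aestronglyMeasurable R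
    (Eventually.of_forall hz)
  have hφ2 : MemLp φ 2 μ := by
    simp only [φ, div_eq_mul_inv]
    exact (hY2.add hz2).mul_const _
  have hη2 : MemLp (η 0) 2 P := by rw [hη']; exact (hid.comp hφ).memLp_iff.2 hφ2
  have key : ∀ Λ : ℝ, Integrable (fun ω => Real.exp (2 / 3 * Λ * s * η 0 ω)) P ↔
      Integrable (fun j => Real.exp (2 / 3 * Λ / l * Y j)) μ := by
    intro Λ
    have e : (fun ω => Real.exp (2 / 3 * Λ * s * η 0 ω)) =
        (fun j => Real.exp (2 / 3 * Λ / l * (Y j + z j))) ∘ J 0 := by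
      funext ω
      simp only [hη, Function.comp]
      congr 1
      field_simp
    rw [e, (hid.comp (measurable_of_countable _)).integrable_iff]
    refine ⟨fun h => ?_, bdd_mul hz⟩
    have := bdd_mul (z := fun j => -z j) (R := R) (fun j => by simpa using hz j) h
    simpa using this
  refine ⟨⟨inferInstance, fun i => hη' i ▸ hφ.comp (hm i), ?_, fun i => ?_,
    hη2.integrable one_le_two, ?_⟩, hη2, le_antisymm (iSup₂_le fun Λ hΛ => ?_) ?_⟩
  · rw [hη]; exact hind.comp (fun _ => φ) fun _ => hφ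
  · rw [hη', hη']; exact ((hJ i).identDistrib (hJ 0)).comp hφ
  · rw [hη', (hJ 0).integral_comp hφ.aestronglyMeasurable]
    simp only [φ]
    rw [integral_div, h3, zero_div]
  · rw [← ENNReal.ofReal_coe_nnreal]
    refine ENNReal.ofReal_le_ofReal (le_of_not_gt fun hc => h2 _ ?_ ((key Λ).1 hΛ))
    rw [lt_div_iff₀ hl]
    linarith
  · refine le_iSup₂_of_le l.toNNReal ?_ le_rfl
    rw [key, Real.coe_toNNReal _ hl.le, mul_div_assoc, div_self hl.ne', mul_one]
    exact h1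

theorem examples (s l : ℝ) (hs : 0 < s) (h0 : 0 < l) (h1 : l < Real.log 2) :
    ∃ (Ω : Type) (_ : MeasurableSpace Ω) (P : Measure Ω),
      (∃ η : ℕ → Ω → ℝ, IsDisorder P η ∧ MemLp (η 0) 2 P ∧ critLam P η s = l ∧
        momLam P η s = ENNReal.ofReal l ∧ critCurve P η l s < ⊤) ∧
      (∃ η : ℕ → Ω → ℝ, IsDisorder P η ∧ MemLp (η 0) 2 P ∧ critLam P η s = l ∧
        momLam P η s = ENNReal.ofReal l ∧ critCurve P η l s = ⊤) := by
  obtain ⟨μ, Y, h, hμ, Y0, hh, i1, i2, p0, p1, H⟩ := base l h0 h1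
  obtain ⟨Ω, mΩ, P, J, hm, hJ, hind, hP⟩ := exists_iid ℕ μ
  have H0 := H Ω P J hm hJ hind
  have hYi : Integrable Y μ := by
    refine (i1.const_mul (3 / 2)).mono' (measurable_of_countable _).aestronglyMeasurable
      (Eventually.of_forall fun j => ?_)
    rw [Real.norm_of_nonneg (Y0 j)]
    linarith [Real.add_one_le_exp (2 / 3 * Y j)]
  set b := ∫ j, Y j ∂μ with hb
  have b0 : 0 ≤ b := integral_nonneg Y0
  set p := μ.real {1} with hp
  let ζ : ℕ → ℝ := fun j => ({1} : Set ℕ).indicator 1 j - p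
  have ζ1 : ∀ j, -1 ≤ ζ j ∧ ζ j ≤ 1 := fun j => by
    simp only [ζ, Set.indicator, Pi.one_apply]
    split_ifs <;> constructor <;> linarith
  have ζi : Integrable ζ μ := Integrable.of_bound (measurable_of_countable _).aestronglyMeasurable 1
    (Eventually.of_forall fun j => abs_le.2 (ζ1 j))
  have ζ0 : ∫ j, ζ j ∂μ = 0 := by
    simp only [ζ]
    rw [integral_sub ((integrable_const 1).indicator (measurableSet_singleton 1))
      (integrable_const _), integral_indicator_one (measurableSet_singleton 1)]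
    simp [hp]
  let η : ℝ → ℕ → Ω → ℝ := fun a i ω => (Y (J i ω) + (-b + a * ζ (J i ω))) / (l * s)
  have hfam := fun a : ℝ => family hm hJ hind (z := fun j => -b + a * ζ j) (R := b + |a|) hs h0 Y0
    (fun j => (abs_add_le _ _).trans (by
      rw [abs_neg, abs_of_nonneg b0, abs_mul]
      nlinarith [abs_le.2 (ζ1 j), abs_nonneg a])) i1 i2
    (by
      have k : Integrable (fun j => -b + a * ζ j) μ := (integrable_const _).add (ζi.const_mul a)
      rw [integral_add hYi k,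
        integral_add (integrable_const _) (ζi.const_mul a), integral_const_mul, ζ0]
      simp [hb]) (η a) rfl
  have env : ∀ a lam i ω, lam * (1 + s * η a i ω) =
      lam + lam / l * (Y (J i ω) - b + a * ζ (J i ω)) := by
    intro a lam i ω
    simp only [η]
    field_simp
    ring
  have fin : ∀ a lam, critCurve P (η a) lam s < ⊤ ↔ ∃ h : ℝ, 0 ≤ h ∧ ∀ᵐ ω ∂P, SubExp fun n =>
      G (fun i => lam + lam / l * (Y (J i ω) - b + a * ζ (J i ω))) h n 0 0 := by
    intro a lam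
    simp only [critCurve_lt_top, freeEnergyEq_iff, env]
  have upper : ∀ a, critLam P (η a) s ≤ l := fun a =>
    (ENNReal.ofReal_le_ofReal_iff h0.le).1 (((hfam a).1.le_momLam hs).trans_eq (hfam a).2.2)
  let A : Set ℝ := {a | 0 ≤ a ∧ critCurve P (η a) l s < ⊤}
  have A0 : (0 : ℝ) ∈ A := by
    refine ⟨le_rfl, (fin 0 l).2 ⟨h, hh, H0.mono fun ω k => k.mono_env fun i => ?_⟩⟩
    rw [div_self h0.ne']
    linarith
  have Ab : BddAbove A := by
    refine ⟨(8 + b + Real.log 12 - 3 / 2 * Real.log p) / (1 - p), fun a ha => ?_⟩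
    by_contra hc
    rw [not_le, div_lt_iff₀ (by linarith)] at hc
    obtain ⟨h', _, hd⟩ := (critCurve_lt_top _ _ s).1 ha.2
    have k1 : p ≤ P.real {ω | (a * (1 - p) - b) / (l * s) ≤ η a 0 ω} := by
      refine ((hJ 0).measureReal_eq (p := fun j => j = 1) (measurableSet_singleton 1)).symm.trans_le
        (measureReal_mono fun ω hω => ?_)
      have e : J 0 ω = 1 := hω
      simp only [η, ζ, Set.mem_ofPred_eq, e, Set.indicator_of_mem (Set.mem_singleton 1),
        Pi.one_apply]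
      gcongr
      linarith [Y0 1]
    refine loc_of_tail (η a) (hfam a).1.meas (hfam a).1.indep (hfam a).1.ident s l h' _ hs.le h0.le
      (p0.trans_le k1) ?_ hd
    have k2 := Real.log_le_log p0 k1
    have k3 : l * (1 + s * ((a * (1 - p) - b) / (l * s))) = l + (a * (1 - p) - b) := by
      field_simp
    rw [k3]
    linarith
  have a0 : 0 ≤ sSup A := le_csSup Ab A0
  refine ⟨Ω, mΩ, P, ⟨η 0, (hfam 0).1, (hfam 0).2.1, le_antisymm (upper 0)
    (le_csSup ((hfam 0).1.bdd s) ⟨h0.le, A0.2⟩), (hfam 0).2.2, A0.2⟩,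
    η (sSup A), (hfam _).1, (hfam _).2.1, le_antisymm (upper _)
      (le_of_forall_lt_imp_le_of_dense fun lam hl => ?_), (hfam _).2.2, ?_⟩
  · rcases le_total lam 0 with hl0 | hl0
    · exact hl0.trans ((hfam _).1.nonneg s)
    refine le_csSup ((hfam _).1.bdd s) ⟨hl0, ?_⟩
    obtain ⟨a, ha, k1⟩ := exists_lt_of_lt_csSup ⟨0, A0⟩
      (show sSup A - (l - lam) < sSup A by linarith)
    have k2 := le_csSup Ab ha
    obtain ⟨h', _, hd⟩ := (fin a l).1 ha.2
    refine (fin _ _).2 ⟨max h h', hh.trans (le_max_left _ _), ?_⟩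
    have r0 : 0 ≤ lam / l := div_nonneg hl0 h0.le
    have r1 : lam / l ≤ 1 := by rw [div_le_one h0]; exact hl.le
    filter_upwards [H0, hd] with ω m1 m2
    refine ((m2.mono_h (le_max_right h h')).convex (m1.mono_h (le_max_left h h')) (lam / l)
      (1 - lam / l) r0 (by linarith) (by ring)).mono_env fun i => ?_
    have r2 : lam / l * l = lam := by field_simp
    have r3 : (sSup A - a) * ζ (J i ω) ≤ l - lam := by nlinarith [ζ1 (J i ω)]
    have r4 : lam / l * ((sSup A - a) * ζ (J i ω)) ≤ l - lam := by nlinarith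
    rw [div_self h0.ne']
    nlinarith [mul_nonneg (sub_nonneg.2 r1) (Y0 (J i ω))]
  · by_contra hc
    obtain ⟨h', hh', hd⟩ := (fin _ l).1 (lt_top_iff_ne_top.2 hc)
    have k1 : 0 < Real.log (1 + bonus h' (-b - sSup A)) :=
      Real.log_pos (by linarith [bonus_pos h' (-b - sSup A)])
    have k2 : sSup A + Real.log (1 + bonus h' (-b - sSup A)) ∈ A := by
      refine ⟨by linarith, (fin _ l).2 ⟨_, add_nonneg hh' (Real.log_nonneg one_le_two),
        hd.mono fun ω k => k.shift hh' (R := -b - sSup A) (fun i => ?_) fun i => ?_⟩⟩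
      · rw [div_self h0.ne']
        nlinarith [ζ1 (J i ω), Y0 (J i ω)]
      · rw [div_self h0.ne']
        nlinarith [ζ1 (J i ω)]
    linarith [le_csSup Ab k2]

end Pool.Agent.Lib.MP_11b949_pr
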